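import Pool.Agent.Q8.GC.Gen

/-!
The bound for linear forms killing an element, when one of them is a general linear form.
-/

open MvPolynomial
open Pool.Agent.W515.SLP (AnnP Deg annP_zero annP_of_gt annP_of_homog lin)
open H503R3.QCI (Homog NZD Reg isSocleDegree_ci gr mem_gr)
open TH130CI
open Pool.Agent.Y204.LF (extend_reg prime_of_gr reg_prefix)

namespace Pool.Agent.Q8.GC

variable {K : Type*} [Field K]

/-- **Bound for the number of linear forms killing an element**, when one of them is a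
nonzerodivisor modulo the first `n - 1` generators. -/
theorem bound_gen [Infinite K] {N : ℕ} {a : Fin (N + 1) → MvPolynomial (Fin (N + 1)) K}
    {e : Fin (N + 1) → ℕ} (ha : ∀ i, (a i).IsHomogeneous (e i)) (he : ∀ i, 1 ≤ e i)
    (hreg : Reg a) {D : ℕ} (hD1 : 1 ≤ D) (hD : ∀ i : Fin N, e i.castSucc ≤ D)
    {q : Fin (N + 1) → K}
    (hq : NZD (Ideal.span (Set.range fun i : Fin N => a i.castSucc)) (lin q))
    {b : MvPolynomial (Fin (N + 1)) K} {j : ℕ} (hb : b.IsHomogeneous j)
    (hbJ : b ∉ Ideal.span (Set.range a)) (hqb : lin q * b ∈ Ideal.span (Set.range a))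
    {v : ℕ} {y : Fin v → Fin (N + 1) → K}
    (hy : LinearIndependent K y) (hyb : ∀ i, lin (y i) * b ∈ Ideal.span (Set.range a)) :
    ∑ i, (e i - 1) ≤ j + (N + 1 - v) * (D - 1) := by
  classical
  by_contra hcon
  push Not at hcon
  have hvn : v ≤ N + 1 := by
    have := hy.fintype_card_le_finrank
    simpa using this
  have hreg0 : Reg (fun i : Fin N => a i.castSucc) := reg_prefix (Nat.le_succ N) hreg
  set a' : Fin (N + 1) → MvPolynomial (Fin (N + 1)) K :=
    Fin.snoc (fun i : Fin N => a i.castSucc) (lin q) with ha'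
  set e' : Fin (N + 1) → ℕ := Fin.snoc (fun i : Fin N => e i.castSucc) 1 with he'
  have hreg' : Reg a' := reg_snoc hreg0 hq
  have h1 : ∀ i, (a' i).IsHomogeneous (e' i) := by
    intro i
    refine Fin.lastCases ?_ (fun j => ?_) i
    · rw [ha', he', Fin.snoc_last, Fin.snoc_last]; exact lin_homog q
    · rw [ha', he', Fin.snoc_castSucc, Fin.snoc_castSucc]; exact ha _
  have h2 : ∀ i, 1 ≤ e' i := by
    intro i
    refine Fin.lastCases ?_ (fun j => ?_) i
    · rw [he', Fin.snoc_last]
    · rw [he', Fin.snoc_castSucc]; exact he _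
  have h3 : ∀ i, e' i ≤ D := by
    intro i
    refine Fin.lastCases ?_ (fun j => ?_) i
    · rw [he', Fin.snoc_last]; exact hD1
    · rw [he', Fin.snoc_castSucc]; exact hD _
  obtain ⟨p, hp, F, e'', hF, hFe, he'', hsum, hmem⟩ := extend_reg
    (J := Ideal.span (Set.range a')) hD1 (prime_of_gr h1 h2 hreg' h3) hy (N + 1 - v) (by omega)
  obtain rfl : p = N + 1 := by omega
  obtain ⟨φ, hφ, hI⟩ := ci_gor ha he hreg
  set σ := ∑ i, (e i - 1) with hσ
  have hjσ : j ≤ σ := by omega
  have h4 : ¬ AnnP φ b := by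
    intro h
    apply hbJ
    rw [hI]
    exact h
  have h5 : ∃ h : MvPolynomial (Fin (N + 1)) K, h.IsHomogeneous (σ - j) ∧ φ (b * h) ≠ 0 := by
    by_contra hc
    push Not at hc
    exact h4 (annP_of_homog hφ hjσ hb hc)
  obtain ⟨h, hh, hbh⟩ := h5
  have h6 : h ∈ Ideal.span (Set.range F) := by
    apply (isSocleDegree_ci F e'' hFe he'' hF).2 (σ - j) _ h hh
    rw [hsum]
    omega
  have h7 : ∀ (m : ℕ) (g : Fin m → MvPolynomial (Fin (N + 1)) K),
      (∀ i, b * g i ∈ Ideal.span (Set.range a)) → ∀ x ∈ Ideal.span (Set.range g),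
      b * x ∈ Ideal.span (Set.range a) := by
    intro m g hg x hx
    obtain ⟨c, rfl⟩ := Ideal.mem_span_range_iff_exists_fun.mp hx
    rw [Finset.mul_sum]
    refine Ideal.sum_mem _ fun i _ => ?_
    have h8 : b * (c i * g i) = c i * (b * g i) := by ring
    rw [h8]
    exact Ideal.mul_mem_left _ _ (hg i)
  have h8 : ∀ i, b * F i ∈ Ideal.span (Set.range a) := by
    intro i
    obtain ⟨x1, hx1, x2, hx2, hx⟩ := Submodule.mem_sup.mp (hmem i)
    rw [← hx, mul_add]
    refine Ideal.add_mem _ (h7 _ _ ?_ _ hx1) (h7 _ _ ?_ _ hx2)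
    · intro i
      refine Fin.lastCases ?_ (fun j => ?_) i
      · rw [ha', Fin.snoc_last, mul_comm]; exact hqb
      · rw [ha', Fin.snoc_castSucc]
        exact Ideal.mul_mem_left _ _ (Ideal.subset_span ⟨_, rfl⟩)
    · intro i
      rw [mul_comm]
      exact hyb i
  have h9 := h7 _ _ h8 h h6
  rw [hI] at h9
  have h10 := h9 1
  rw [mul_one] at h10
  exact hbh h10

end Pool.Agent.Q8.GC
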