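import Mathlib

/-!
Ranks of the powers of an endomorphism.
-/

namespace Pool.Agent.Q8.GC

open Module

variable {K W : Type*} [Field K] [AddCommGroup W] [Module K W]

/-- the rank of `f ^ g` -/
noncomputable def cc (f : W →ₗ[K] W) (g : ℕ) : ℕ := finrank K (LinearMap.range (f ^ g))

/-- the drop of the ranks -/
noncomputable def nu (f : W →ₗ[K] W) (g : ℕ) : ℕ := cc f g - cc f (g + 1)

lemma range_succ (f : W →ₗ[K] W) (g : ℕ) :
    LinearMap.range (f ^ (g + 1)) = (LinearMap.range (f ^ g)).map f := by
  rw [pow_succ', Module.End.mul_eq_comp, LinearMap.range_comp]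

lemma range_succ' (f : W →ₗ[K] W) (g : ℕ) :
    LinearMap.range (f ^ (g + 1)) = (LinearMap.range f).map (f ^ g) := by
  rw [pow_succ, Module.End.mul_eq_comp, LinearMap.range_comp]

lemma range_le (f : W →ₗ[K] W) (g : ℕ) :
    LinearMap.range (f ^ (g + 1)) ≤ LinearMap.range (f ^ g) := by
  rw [range_succ']
  rintro _ ⟨x, -, rfl⟩
  exact LinearMap.mem_range_self _ x

variable [FiniteDimensional K W]

lemma cc_le (f : W →ₗ[K] W) (g : ℕ) : cc f (g + 1) ≤ cc f g :=
  Submodule.finrank_mono (range_le f g)

lemma nu_eq (f : W →ₗ[K] W) (g : ℕ) :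
    nu f g = finrank K (LinearMap.ker (f.domRestrict (LinearMap.range (f ^ g)))) := by
  have h := LinearMap.finrank_range_add_finrank_ker (f.domRestrict (LinearMap.range (f ^ g)))
  have h2 : LinearMap.range (f.domRestrict (LinearMap.range (f ^ g))) =
      LinearMap.range (f ^ (g + 1)) := by
    rw [range_succ]
    ext x
    simp only [LinearMap.mem_range, LinearMap.domRestrict_apply, Submodule.mem_map, Subtype.exists,
      exists_prop]
  rw [h2] at h
  unfold nu cc
  omega

lemma nu_succ_le (f : W →ₗ[K] W) (g : ℕ) : nu f (g + 1) ≤ nu f g := by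
  rw [nu_eq, nu_eq]
  have hle := range_le f g
  let j : LinearMap.ker (f.domRestrict (LinearMap.range (f ^ (g + 1)))) →ₗ[K]
      LinearMap.ker (f.domRestrict (LinearMap.range (f ^ g))) :=
    { toFun := fun x => ⟨⟨x.1.1, hle x.1.2⟩, by
        have := x.2
        rw [LinearMap.mem_ker, LinearMap.domRestrict_apply] at this ⊢
        exact this⟩
      map_add' := fun x y => rfl
      map_smul' := fun c x => rfl }
  apply LinearMap.finrank_le_finrank_of_injective (f := j)
  intro x y hxy
  have h1 := congrArg (fun z => (z.1.1 : W)) hxy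
  exact Subtype.ext (Subtype.ext h1)

lemma nu_antitone (f : W →ₗ[K] W) {g h : ℕ} (hgh : g ≤ h) : nu f h ≤ nu f g := by
  induction h, hgh using Nat.le_induction with
  | base => exact le_rfl
  | succ n _ ih => exact (nu_succ_le f n).trans ih

lemma sum_nu (f : W →ₗ[K] W) (G : ℕ) : ∑ g ∈ Finset.range G, nu f (g + 1) + cc f (G + 1) = cc f 1 := by
  induction G with
  | zero => simp
  | succ G ih =>
    rw [Finset.sum_range_succ]
    have h1 := cc_le f (G + 1)
    unfold nu at ih ⊢
    omega

lemma codim_le (f : W →ₗ[K] W) (g : ℕ) (T : Submodule K W) (hT : LinearMap.ker (f ^ g) ≤ T)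
    (hT2 : LinearMap.range f ≤ T) : finrank K W ≤ finrank K T + nu f g := by
  have h1 := LinearMap.finrank_range_add_finrank_ker ((f ^ g).domRestrict T)
  have h2 := LinearMap.finrank_range_add_finrank_ker (f ^ g)
  have h3 : cc f (g + 1) ≤ finrank K (LinearMap.range ((f ^ g).domRestrict T)) := by
    apply Submodule.finrank_mono
    rw [range_succ']
    rintro _ ⟨x, hx, rfl⟩
    exact ⟨⟨x, hT2 hx⟩, rfl⟩
  have h4 : finrank K (LinearMap.ker (f ^ g)) ≤ finrank K (LinearMap.ker ((f ^ g).domRestrict T)) := by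
    let j : LinearMap.ker (f ^ g) →ₗ[K] LinearMap.ker ((f ^ g).domRestrict T) :=
      { toFun := fun x => ⟨⟨x.1, hT x.2⟩, by
          rw [LinearMap.mem_ker, LinearMap.domRestrict_apply]
          exact x.2⟩
        map_add' := fun x y => rfl
        map_smul' := fun c x => rfl }
    apply LinearMap.finrank_le_finrank_of_injective (f := j)
    intro x y hxy
    have h1 := congrArg (fun z => (z.1.1 : W)) hxy
    exact Subtype.ext h1
  have h5 := cc_le f g
  unfold nu
  unfold cc at h3 h5 ⊢
  omega

/-! the quotient by a line -/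

variable {V : Type*} [AddCommGroup V] [Module K V] [FiniteDimensional K V]

/-- the endomorphism of the quotient by the line spanned by `m` -/
noncomputable def quo (M : V →ₗ[K] V) (m : V) (hm : M m ∈ Submodule.span K {m}) :
    (V ⧸ Submodule.span K {m}) →ₗ[K] (V ⧸ Submodule.span K {m}) :=
  Submodule.mapQ _ _ M (by
    rw [Submodule.span_singleton_le_iff_mem]
    exact hm)

lemma quo_pow (M : V →ₗ[K] V) (m : V) (hm : M m ∈ Submodule.span K {m}) (g : ℕ) (u : V) :
    ((quo M m hm) ^ g) (Submodule.Quotient.mk u) = Submodule.Quotient.mk ((M ^ g) u) := by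
  induction g with
  | zero => rfl
  | succ g ih =>
    rw [pow_succ', Module.End.mul_apply, ih, pow_succ', Module.End.mul_apply]
    rfl

lemma finrank_quo {m : V} (hm0 : m ≠ 0) :
    finrank K (V ⧸ Submodule.span K {m}) + 1 = finrank K V := by
  have h1 := Submodule.finrank_quotient_add_finrank (Submodule.span K {m})
  rw [finrank_span_singleton hm0] at h1
  exact h1

lemma finrank_of_mem {m : V} (hm0 : m ≠ 0) (T : Submodule K V) (hmT : m ∈ T) :
    finrank K (T.map (Submodule.span K {m}).mkQ) + 1 = finrank K T := by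
  have h1 := LinearMap.finrank_range_add_finrank_ker
    ((Submodule.span K {m}).mkQ.domRestrict T)
  have h2 : LinearMap.range ((Submodule.span K {m}).mkQ.domRestrict T) =
      T.map (Submodule.span K {m}).mkQ := by
    ext x
    simp only [LinearMap.mem_range, LinearMap.domRestrict_apply, Submodule.mem_map, Subtype.exists,
      exists_prop]
  have h3 : LinearMap.ker ((Submodule.span K {m}).mkQ.domRestrict T) =
      Submodule.span K {(⟨m, hmT⟩ : T)} := by
    ext x
    rw [LinearMap.mem_ker, LinearMap.domRestrict_apply, Submodule.mkQ_apply,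
      Submodule.Quotient.mk_eq_zero, Submodule.mem_span_singleton, Submodule.mem_span_singleton]
    constructor
    · rintro ⟨a, ha⟩; exact ⟨a, Subtype.ext ha⟩
    · rintro ⟨a, ha⟩; exact ⟨a, congrArg Subtype.val ha⟩
  rw [h2, h3, finrank_span_singleton (by
    intro h
    exact hm0 (congrArg Subtype.val h))] at h1
  exact h1

theorem codim_quo (M : V →ₗ[K] V) {m : V} (hm0 : m ≠ 0) (hm : M m ∈ Submodule.span K {m}) (g : ℕ)
    (T : Submodule K V) (hT : ∀ u, (M ^ g) u ∈ Submodule.span K {m} → u ∈ T)
    (hT2 : ∀ u, M u ∈ T) (hmT : m ∈ T) :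
    finrank K V ≤ finrank K T + nu (quo M m hm) g := by
  have h1 := codim_le (quo M m hm) g (T.map (Submodule.span K {m}).mkQ) (by
    intro x hx
    obtain ⟨u, rfl⟩ := Submodule.Quotient.mk_surjective _ x
    rw [LinearMap.mem_ker, quo_pow, Submodule.Quotient.mk_eq_zero] at hx
    exact ⟨u, hT u hx, rfl⟩) (by
    rintro _ ⟨x, rfl⟩
    obtain ⟨u, rfl⟩ := Submodule.Quotient.mk_surjective _ x
    exact ⟨M u, hT2 u, rfl⟩)
  have h2 := finrank_quo (K := K) hm0
  have h3 := finrank_of_mem (K := K) hm0 T hmT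
  omega

theorem dim_quo (M : V →ₗ[K] V) {m : V} (hm0 : m ≠ 0) (hm : M m ∈ Submodule.span K {m})
    (T : Submodule K V) (hT2 : ∀ u, M u ∈ T) (hmT : m ∈ T) :
    cc (quo M m hm) 1 + 1 ≤ finrank K T := by
  have h3 := finrank_of_mem (K := K) hm0 T hmT
  have h4 : cc (quo M m hm) 1 ≤ finrank K (T.map (Submodule.span K {m}).mkQ) := by
    apply Submodule.finrank_mono
    rintro _ ⟨x, rfl⟩
    obtain ⟨u, rfl⟩ := Submodule.Quotient.mk_surjective _ x
    rw [quo_pow, pow_one]
    exact ⟨M u, hT2 u, rfl⟩
  omega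

/-- a vector outside the line which is mapped into the line bounds the rank -/
theorem cc_le_of_mem (M : V →ₗ[K] V) {m : V} (hm0 : m ≠ 0) (hm : M m ∈ Submodule.span K {m})
    {q : V} (hq : q ∉ Submodule.span K {m}) (hMq : M q ∈ Submodule.span K {m}) :
    cc (quo M m hm) 1 + 2 ≤ finrank K V := by
  have h1 := LinearMap.finrank_range_add_finrank_ker (quo M m hm)
  have h2 := finrank_quo (K := K) hm0
  have h3 : 1 ≤ finrank K (LinearMap.ker (quo M m hm)) := by
    rw [Nat.one_le_iff_ne_zero]
    intro h0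
    rw [Submodule.finrank_eq_zero] at h0
    have h5 : (Submodule.Quotient.mk q : V ⧸ Submodule.span K {m}) ∈
        LinearMap.ker (quo M m hm) := by
      rw [LinearMap.mem_ker]
      exact (Submodule.Quotient.mk_eq_zero _).mpr hMq
    rw [h0, Submodule.mem_bot, Submodule.Quotient.mk_eq_zero] at h5
    exact hq h5
  have h6 : cc (quo M m hm) 1 = finrank K (LinearMap.range (quo M m hm)) := by
    unfold cc
    rw [pow_one]
  omega

end Pool.Agent.Q8.GC
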