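import Pool.Agent.Q8.GC.Bnd
import Pool.Agent.Q8.GC.Lin
import Pool.Agent.Q8.GC.Cnt

/-!
**The theorem of Gordan and Noether for complete intersections.**
-/

open MvPolynomial
open Pool.Agent.W515.SLP (AnnP Deg annP_zero annP_of_gt annP_of_homog lin)
open H503R3.QCI (Homog NZD Reg isSocleDegree_ci gr mem_gr)
open TH130CI
open Pool.Agent.Y204.LF (extend_reg prime_of_gr reg_prefix em sum_em bound_sorted reg_lin lin_eq
  openC_nzd exists_lin_of_reg)

namespace Pool.Agent.Q8.GC

open Module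

variable {K : Type*} [Field K]

/-- the linear forms killing `θ` -/
noncomputable def Tk {n : ℕ} (I : Ideal (MvPolynomial (Fin n) K)) (θ : MvPolynomial (Fin n) K) :
    Submodule K (Fin n → K) where
  carrier := {u | θ * lin u ∈ I}
  zero_mem' := by
    change θ * linL K n 0 ∈ I
    rw [map_zero, mul_zero]
    exact I.zero_mem
  add_mem' := by
    intro u v hu hv
    change θ * linL K n (u + v) ∈ I
    rw [map_add, mul_add]
    exact I.add_mem hu hv
  smul_mem' := by
    intro c u hu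
    change θ * linL K n (c • u) ∈ I
    rw [map_smul, mul_smul_comm, smul_eq_C_mul]
    exact I.mul_mem_left _ hu

lemma mem_Tk {n : ℕ} {I : Ideal (MvPolynomial (Fin n) K)} {θ : MvPolynomial (Fin n) K}
    {u : Fin n → K} : u ∈ Tk I θ ↔ θ * lin u ∈ I := Iff.rfl

lemma lin_mem_of_span {n : ℕ} {I : Ideal (MvPolynomial (Fin n) K)} {θ : MvPolynomial (Fin n) K}
    {u m : Fin n → K} (hu : u ∈ Submodule.span K {m}) (hm : m ∈ Tk I θ) : u ∈ Tk I θ := by
  rw [Submodule.mem_span_singleton] at hu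
  obtain ⟨c, rfl⟩ := hu
  exact (Tk I θ).smul_mem c hm

/-- the statement at a general point, as a purely algebraic contradiction -/
theorem contra [CharZero K] {N : ℕ} {a : Fin (N + 1) → MvPolynomial (Fin (N + 1)) K}
    {e : Fin (N + 1) → ℕ} (ha : ∀ i, (a i).IsHomogeneous (e i)) (he : ∀ i, 2 ≤ e i)
    (hreg : Reg a) (hmono : Monotone e) {D : ℕ} (hD1 : 1 ≤ D) (hD : ∀ i : Fin N, e i.castSucc ≤ D)
    (hnum : (N - 1) * (D - 1) ≤ ∑ i : Fin N, (e i.castSucc - 1))
    {s : ℕ} (hs : 1 ≤ s) (hσ : ∑ i, (e i - 1) = s + 2)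
    {m : Fin (N + 1) → MvPolynomial (Fin (N + 1)) K} {j0 : Fin (N + 1)}
    (hm : ell (Ideal.span (Set.range a)) ^ s * mu (Ideal.span (Set.range a)) m = 0)
    (hmm : ∀ j, m j0 * dd m m j = dd m m j0 * m j)
    (hmX : ∀ j, m j0 * dd (fun j => X j) m j = dd (fun j => X j) m j0 * m j)
    {q : Fin (N + 1) → K} (hqJ : NZD (Ideal.span (Set.range fun i : Fin N => a i.castSucc)) (lin q))
    (hqj : eval q (m j0) ≠ 0)
    (hq : ∀ x y, x ≤ s + 2 → y ≤ s + 2 → (lin q ^ x * lin (vl q m) ^ y ∈ Ideal.span (Set.range a) ↔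
      ell (Ideal.span (Set.range a)) ^ x * mu (Ideal.span (Set.range a)) m ^ y = 0)) : False := by
  classical
  have he1 : ∀ i, 1 ≤ e i := fun i => (by omega : 1 ≤ 2).trans (he i)
  set I := Ideal.span (Set.range a) with hIdef
  have hS : Soc I (s + 2) := by
    intro j w hw hj hXw
    rw [← hσ] at hj
    exact socle_ci _ a e ha he1 (sreg_of_reg ha he1 hreg) rfl j w hw hj hXw
  have hI1 : (1 : MvPolynomial (Fin (N + 1)) K) ∉ I := by
    intro h1
    obtain ⟨⟨h0, -, hh0I⟩, -⟩ := isSocleDegree_ci a e ha he1 hreg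
    apply hh0I
    have := I.mul_mem_left h0 h1
    rwa [mul_one] at this
  set p := vl q m with hp
  set M := MM q m with hM
  set Z : ℕ → ℕ → Prop := fun D b => lin q ^ (D - b) * lin p ^ b ∈ I with hZ
  have hZg : ∀ D b, D ≤ s + 2 → b ≤ s + 2 →
      (Z D b ↔ ell I ^ (D - b) * mu I m ^ b = 0) := fun D b h1 h2 => hq _ _ (by omega) h2
  have hp0 : p ≠ 0 := by
    intro h0
    apply hqj
    exact congrFun h0 j0
  have hMp : M p ∈ Submodule.span K {p} := MM_mem hqj hmm
  have hMq : M q ∈ Submodule.span K {p} := by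
    have h1 := MM_mem hqj hmX
    rwa [vl_X] at h1
  -- the top powers of `q`
  have hell : ∀ k, k ≤ s + 2 → lin q ^ k ∉ I := by
    intro k hk h1
    have h2 := (hq k 0 hk (by omega)).mp (by rwa [pow_zero, mul_one])
    rw [pow_zero, mul_one] at h2
    exact ell_pow_ne hS hI1 k hk h2
  have hZ0 : ∀ D, D + 1 ≤ s + 2 → ¬ Z D 0 := by
    intro D hD h1
    apply hell D (by omega)
    have h2 : lin q ^ (D - 0) * lin p ^ 0 ∈ I := h1
    rwa [pow_zero, mul_one, Nat.sub_zero] at h2
  have hZ1 : ∀ b, 1 ≤ b → b + 1 ≤ s + 2 → Z (s + 2 - 1) b := by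
    intro b hb1 hb2
    rw [hZg _ _ (by omega) (by omega)]
    have h1 := gn hS le_rfl hm (b - 1) (by omega)
    rwa [show s - (b - 1) = s + 2 - 1 - b by omega, Nat.sub_add_cancel hb1] at h1
  have hqp : q ∉ Submodule.span K {p} := by
    intro h1
    apply hell (s + 1) (by omega)
    have h2 : p ∈ Tk I (lin q ^ s) := by
      have h3 := hZ1 1 le_rfl (by omega)
      have h4 : lin q ^ (s + 2 - 1 - 1) * lin p ^ 1 ∈ I := h3
      rwa [pow_one, show s + 2 - 1 - 1 = s by omega] at h4
    have h3 := lin_mem_of_span h1 h2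
    rw [mem_Tk] at h3
    rwa [pow_succ]
  -- the nilpotency index
  have hex : ∃ b, lin p ^ (b + 1) ∈ I := by
    refine ⟨s, ?_⟩
    have h3 := hZ1 (s + 1) (by omega) (by omega)
    have h4 : lin q ^ (s + 2 - 1 - (s + 1)) * lin p ^ (s + 1) ∈ I := h3
    rwa [show s + 2 - 1 - (s + 1) = 0 by omega, pow_zero, one_mul] at h4
  obtain ⟨β, hβ1, hβmin⟩ : ∃ β, lin p ^ (β + 1) ∈ I ∧ ∀ b < β, lin p ^ (b + 1) ∉ I :=
    ⟨Nat.find hex, Nat.find_spec hex, fun b hb => Nat.find_min hex hb⟩
  have hβσ : β ≤ s := by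
    by_contra hcon
    refine hβmin s (by omega) ?_
    have h3 := hZ1 (s + 1) (by omega) (by omega)
    have h4 : lin q ^ (s + 2 - 1 - (s + 1)) * lin p ^ (s + 1) ∈ I := h3
    rwa [show s + 2 - 1 - (s + 1) = 0 by omega, pow_zero, one_mul] at h4
  have hβ0 : lin p ^ β ∉ I := by
    rcases Nat.eq_zero_or_pos β with h | h
    · rw [h, pow_zero]; exact hI1
    · have := hβmin (β - 1) (by omega)
      rwa [Nat.sub_add_cancel h] at this
  have hZβ : ¬ Z β β := by
    intro h1
    have h2 : lin q ^ (β - β) * lin p ^ β ∈ I := h1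
    rw [Nat.sub_self, pow_zero, one_mul] at h2
    exact hβ0 h2
  have hZβ' : ∀ D, β < D → D + 1 ≤ s + 2 → Z D D := by
    intro D h1 _
    change lin q ^ (D - D) * lin p ^ D ∈ I
    rw [Nat.sub_self, pow_zero, one_mul]
    obtain ⟨k, rfl⟩ := Nat.exists_eq_add_of_le (Nat.succ_le_of_lt h1)
    rw [pow_add]
    exact I.mul_mem_right _ hβ1
  -- the spaces of linear forms
  have hTq : ∀ D b, b ≤ D → (q ∈ Tk I (lin q ^ (D - b) * lin p ^ b) ↔ Z (D + 1) b) := by
    intro D b hb
    rw [mem_Tk]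
    have e1 : (lin q ^ (D - b) * lin p ^ b * lin q : MvPolynomial (Fin (N + 1)) K) =
        lin q ^ (D + 1 - b) * lin p ^ b := by
      rw [show D + 1 - b = D - b + 1 by omega, pow_succ]; ring
    rw [e1]
  have hTp : ∀ D b, b ≤ D → (p ∈ Tk I (lin q ^ (D - b) * lin p ^ b) ↔ Z (D + 1) (b + 1)) := by
    intro D b hb
    rw [mem_Tk]
    have e1 : (lin q ^ (D - b) * lin p ^ b * lin p : MvPolynomial (Fin (N + 1)) K) =
        lin q ^ (D + 1 - (b + 1)) * lin p ^ (b + 1) := by
      rw [show D + 1 - (b + 1) = D - b by omega, pow_succ]; ring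
    rw [e1]
  -- transport down
  have hdown : ∀ D b, b + 1 ≤ D → D + 1 ≤ s + 2 → Z (D + 1) (b + 1) → ∀ u,
      M u ∈ Tk I (lin q ^ (D - b) * lin p ^ b) → u ∈ Tk I (lin q ^ (D - (b + 1)) * lin p ^ (b + 1)) := by
    intro D b hb hDs hz u hu
    rw [hZg _ _ hDs (by omega)] at hz
    obtain ⟨c, hc⟩ : ∃ c, D + 1 - (b + 1) = c + 1 := ⟨D - b - 1, by omega⟩
    rw [hc] at hz
    have h1 := ev_deriv hz q u
    rw [mem_Tk] at hu ⊢
    rw [show D - b = c + 1 by omega] at hu
    rw [show D - (b + 1) = c by omega]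
    apply nat_mem (N := c + 1) (by omega)
    have h2 := I.sub_mem h1 (I.mul_mem_left ((b + 1 : ℕ) : MvPolynomial (Fin (N + 1)) K) hu)
    rwa [add_sub_cancel_right] at h2
  have himT : ∀ D b, b ≤ D → D + 1 ≤ s + 2 → Z (D + 1) (b + 1) → (b + 1 ≤ D → Z D (b + 1)) →
      ∀ u, M u ∈ Tk I (lin q ^ (D - b) * lin p ^ b) := by
    intro D b hb hDs hz hz' u
    rw [mem_Tk]
    rcases Nat.eq_or_lt_of_le hb with h | h
    · subst h
      rw [hZg _ _ hDs (by omega), Nat.sub_self, pow_zero, one_mul] at hz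
      rw [Nat.sub_self, pow_zero, one_mul]
      exact ev_deriv' hz q u
    · rw [hZg _ _ hDs (by omega)] at hz
      obtain ⟨c, hc⟩ : ∃ c, D + 1 - (b + 1) = c + 1 := ⟨D - b - 1, by omega⟩
      rw [hc] at hz
      have h1 := ev_deriv hz q u
      rw [show D - b = c + 1 by omega]
      apply nat_mem (N := b + 1) (by omega)
      have h3 : lin q ^ c * lin p ^ (b + 1) ∈ I := by
        have h4 : lin q ^ (D - (b + 1)) * lin p ^ (b + 1) ∈ I := hz' (by omega)
        rwa [show D - (b + 1) = c by omega] at h4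
      have h2 := I.sub_mem h1 (I.mul_mem_left ((c + 1 : ℕ) : MvPolynomial (Fin (N + 1)) K)
        (I.mul_mem_right (lin u) h3))
      rwa [add_sub_cancel_left] at h2
  set nuM : ℕ → ℕ := fun g => nu (quo M p hMp) g with hnuM
  have hcor : ∀ D' b x, 1 ≤ x → x ≤ b → b ≤ D' → D' + 2 ≤ s + 2 → ¬ Z D' b →
      (∀ b', x ≤ b' → b' ≤ b + 1 → Z (D' + 1) b') → (b + 1 ≤ D' → Z D' (b + 1)) →
      (s + 2) - D' ≤ nuM (b + 1 - x) * (D - 1) := by
    intro D' b x hx1 hxb hbD hDs hnz hz hz'
    have hit : ∀ j, j ≤ b + 1 - x → ∀ u, (M ^ j) u ∈ Tk I (lin q ^ (D' - (b - j)) * lin p ^ (b - j)) →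
        u ∈ Tk I (lin q ^ (D' - b) * lin p ^ b) := by
      intro j
      induction j with
      | zero =>
        intro _ u hu
        rwa [pow_zero, Nat.sub_zero] at hu
      | succ j ih =>
        intro hj u hu
        apply ih (by omega)
        rw [pow_succ', Module.End.mul_apply] at hu
        have h1 := hdown D' (b - (j + 1)) (by omega) (by omega)
          (hz _ (by omega) (by omega)) _ hu
        rwa [show b - (j + 1) + 1 = b - j by omega] at h1
    have hcod := codim_quo M hp0 hMp (b + 1 - x) (Tk I (lin q ^ (D' - b) * lin p ^ b))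
      (by
        intro u hu
        apply hit _ le_rfl
        apply lin_mem_of_span hu
        rw [hTp D' _ (by omega), show b - (b + 1 - x) + 1 = x by omega]
        exact hz x le_rfl (by omega))
      (himT D' b hbD (by omega) (hz _ (by omega) le_rfl) hz')
      ((hTp D' b hbD).mpr (hz _ (by omega) le_rfl))
    rw [finrank_fin_fun] at hcod
    have hbas := (Module.finBasis K (Tk I (lin q ^ (D' - b) * lin p ^ b))).linearIndependent.map'
      (Tk I (lin q ^ (D' - b) * lin p ^ b)).subtype (Submodule.ker_subtype _)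
    have hhom : (lin q ^ (D' - b) * lin p ^ b : MvPolynomial (Fin (N + 1)) K).IsHomogeneous D' := by
      have h1 := ((lin_homog q).pow (D' - b)).mul ((lin_homog p).pow b)
      rwa [one_mul, one_mul, Nat.sub_add_cancel hbD] at h1
    have hbd := bound_gen ha he1 hreg hD1 hD hqJ hhom hnz (by
      have h1 := (hTq D' b hbD).mpr (hz b hxb (by omega))
      rw [mem_Tk, mul_comm] at h1
      exact h1) hbas (by
      intro i
      have h1 := (Module.finBasis K (Tk I (lin q ^ (D' - b) * lin p ^ b)) i).2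
      rw [mem_Tk, mul_comm] at h1
      exact h1)
    rw [hσ] at hbd
    have h1 : (N + 1 - finrank K (Tk I (lin q ^ (D' - b) * lin p ^ b))) * (D - 1) ≤
        nuM (b + 1 - x) * (D - 1) := by
      apply Nat.mul_le_mul_right
      rw [hnuM]
      simp only
      omega
    omega
  have hcount := count (s + 2) β (D - 1) Z nuM (by omega) hZ0 hZ1 hZβ hZβ' hcor
    (fun g h hgh => nu_antitone _ hgh)
  -- the sum of the `ν`
  set c := cc (quo M p hMp) 1 with hc
  have hsumnu : ∑ g ∈ Finset.Icc 1 (s + 2), nuM g ≤ c := by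
    have h1 := sum_nu (quo M p hMp) (s + 2)
    have h2 : ∑ g ∈ Finset.Icc 1 (s + 2), nuM g = ∑ g ∈ Finset.range (s + 2), nuM (g + 1) := by
      rw [Finset.range_eq_Ico, Finset.sum_Ico_add' nuM 0 (s + 2) 1]
      refine Finset.sum_congr ?_ fun _ _ => rfl
      ext x
      simp only [Finset.mem_Icc, Finset.mem_Ico]
      omega
    rw [h2, hc, ← h1]
    exact Nat.le_add_right _ _
  -- the lower bound for `β`
  have hcN : c + 2 ≤ N + 1 := by
    have h1 := cc_le_of_mem M hp0 hMp hqp hMq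
    rwa [finrank_fin_fun] at h1
  have hβbd : ∑ i ∈ Finset.range (c + 1), em e i ≤ β := by
    have hdim := dim_quo M hp0 hMp (Tk I (lin q ^ (β - β) * lin p ^ β))
      (himT β β le_rfl (by omega) (hZβ' _ (by omega) (by omega)) (fun h => by omega))
      ((hTp β β le_rfl).mpr (hZβ' _ (by omega) (by omega)))
    have hv : finrank K (Tk I (lin q ^ (β - β) * lin p ^ β)) ≤ N + 1 := by
      have h1 := Submodule.finrank_le (Tk I (lin q ^ (β - β) * lin p ^ β))
      rwa [finrank_fin_fun] at h1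
    have hbas := (Module.finBasis K (Tk I (lin q ^ (β - β) * lin p ^ β))).linearIndependent.map'
      (Tk I (lin q ^ (β - β) * lin p ^ β)).subtype (Submodule.ker_subtype _)
    have hhom : (lin q ^ (β - β) * lin p ^ β : MvPolynomial (Fin (N + 1)) K).IsHomogeneous β := by
      have h1 := ((lin_homog q).pow (β - β)).mul ((lin_homog p).pow β)
      rwa [one_mul, one_mul, Nat.sub_add_cancel le_rfl] at h1
    have hbd := bound_sorted ha he1 hreg hmono hv (ε := fun _ => 1) (fun i => lin_homog _)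
      (fun _ => le_rfl) (reg_lin hbas) hhom hZβ (by
      intro i
      have h1 := (Module.finBasis K (Tk I (lin q ^ (β - β) * lin p ^ β)) i).2
      rw [mem_Tk, mul_comm] at h1
      exact h1)
    simp only [Nat.sub_self, Finset.sum_const_zero, Nat.add_zero] at hbd
    refine le_trans ?_ hbd
    apply Finset.sum_le_sum_of_subset
    intro x hx
    rw [Finset.mem_range] at hx ⊢
    exact lt_of_lt_of_le hx hdim
  -- the numbers
  have hemN : ∀ i, i < N → em e i ≤ D - 1 := by
    intro i hi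
    rw [Pool.Agent.Y204.LF.em, dif_pos (by omega : i < N + 1)]
    have := hD ⟨i, hi⟩
    exact Nat.sub_le_sub_right this 1
  have hsumN : ∑ i : Fin N, (e i.castSucc - 1) = ∑ i ∈ Finset.range N, em e i := by
    rw [Finset.sum_range]
    refine Finset.sum_congr rfl fun i _ => ?_
    rw [Pool.Agent.Y204.LF.em, dif_pos (by omega : i.1 < N + 1)]
    rfl
  rw [hsumN] at hnum
  have hsplit : ∑ i ∈ Finset.range N, em e i ≤
      ∑ i ∈ Finset.range (c + 1), em e i + (N - (c + 1)) * (D - 1) := by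
    have h1 := Finset.sum_range_add (em e) (c + 1) (N - (c + 1))
    rw [Nat.add_sub_cancel' (by omega : c + 1 ≤ N)] at h1
    rw [h1]
    apply Nat.add_le_add_left
    calc ∑ x ∈ Finset.range (N - (c + 1)), em e (c + 1 + x)
        ≤ ∑ _x ∈ Finset.range (N - (c + 1)), (D - 1) := by
          refine Finset.sum_le_sum fun x hx => ?_
          rw [Finset.mem_range] at hx
          exact hemN _ (by omega)
      _ = (N - (c + 1)) * (D - 1) := by
          rw [Finset.sum_const, Finset.card_range, smul_eq_mul]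
  have hcD : c * (D - 1) ≤ β := by
    have h1 : (N - 1) * (D - 1) = c * (D - 1) + (N - (c + 1)) * (D - 1) := by
      rw [← Nat.add_mul]
      congr 1
      omega
    omega
  have h1β : 1 ≤ β := by
    have h1 : em e 0 ≤ ∑ i ∈ Finset.range (c + 1), em e i :=
      Finset.single_le_sum (f := em e) (fun i _ => Nat.zero_le _)
        (Finset.mem_range.mpr (Nat.succ_pos c))
    have h2 : em e 0 = e 0 - 1 := by
      rw [Pool.Agent.Y204.LF.em, dif_pos (Nat.succ_pos N)]
      rfl
    have h3 := he 0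
    omega
  exact numeric hcount hsumnu hcD h1β

end Pool.Agent.Q8.GC
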