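import Pool.Agent.Y204.LF.Unmixed

/-!
The generic linear form and the generic relation `ℓ ^ s m = 0` in a graded algebra whose socle lives
in the top degree: the identities obtained by differentiation (Gordan and Noether).
-/

open MvPolynomial
open Pool.Agent.W515.SLP (AnnP Deg annP_zero annP_of_gt annP_of_homog lin)
open TH130CI

namespace Pool.Agent.Q8.GC

variable {K : Type*} [Field K] {n : ℕ}

/-- the class of a variable -/
noncomputable def xx (I : Ideal (MvPolynomial (Fin n) K)) (j : Fin n) :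
    MvPolynomial (Fin n) K ⧸ I := Ideal.Quotient.mk I (X j)

/-- the generic linear form -/
noncomputable def ell (I : Ideal (MvPolynomial (Fin n) K)) :
    MvPolynomial (Fin n) (MvPolynomial (Fin n) K ⧸ I) := ∑ j, C (xx I j) * X j

/-- the linear form with the polynomial coefficients `m` -/
noncomputable def mu (I : Ideal (MvPolynomial (Fin n) K)) (m : Fin n → MvPolynomial (Fin n) K) :
    MvPolynomial (Fin n) (MvPolynomial (Fin n) K ⧸ I) :=
  ∑ j, C (xx I j) * map (algebraMap K (MvPolynomial (Fin n) K ⧸ I)) (m j)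

/-- the derivative of `m` in the direction `r` -/
noncomputable def dd (r m : Fin n → MvPolynomial (Fin n) K) (j : Fin n) : MvPolynomial (Fin n) K :=
  ∑ i, r i * pderiv i (m j)

variable (I : Ideal (MvPolynomial (Fin n) K))

lemma pderiv_ell (i : Fin n) : pderiv i (ell I) = C (xx I i) := by
  classical
  unfold ell
  rw [map_sum, Finset.sum_eq_single i]
  · rw [Derivation.leibniz, pderiv_C, smul_zero, add_zero, pderiv_X_self, smul_eq_mul, mul_one]
  · intro j _ hj
    rw [Derivation.leibniz, pderiv_C, smul_zero, add_zero, pderiv_X_of_ne hj, smul_zero]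
  · intro h
    exact absurd (Finset.mem_univ i) h

lemma pderiv_mu (i : Fin n) (m : Fin n → MvPolynomial (Fin n) K) :
    pderiv i (mu I m) = mu I (fun j => pderiv i (m j)) := by
  unfold mu
  rw [map_sum]
  refine Finset.sum_congr rfl fun j _ => ?_
  rw [Derivation.leibniz, pderiv_C, smul_zero, add_zero, pderiv_map, smul_eq_mul]

lemma mu_X : mu I (fun j => X j) = ell I := by
  unfold mu ell
  refine Finset.sum_congr rfl fun j _ => ?_
  rw [map_X]

lemma mu_mul (p : MvPolynomial (Fin n) K) (m : Fin n → MvPolynomial (Fin n) K) :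
    mu I (fun j => p * m j) = map (algebraMap K (MvPolynomial (Fin n) K ⧸ I)) p * mu I m := by
  unfold mu
  rw [Finset.mul_sum]
  refine Finset.sum_congr rfl fun j _ => ?_
  rw [map_mul]
  ring

lemma mu_add (m m' : Fin n → MvPolynomial (Fin n) K) :
    mu I (fun j => m j + m' j) = mu I m + mu I m' := by
  simp only [mu, map_add, mul_add, Finset.sum_add_distrib]

lemma mu_sub (m m' : Fin n → MvPolynomial (Fin n) K) :
    mu I (fun j => m j - m' j) = mu I m - mu I m' := by
  have h := mu_add I (fun j => m j - m' j) m'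
  simp only [sub_add_cancel] at h
  exact (sub_eq_of_eq_add h).symm

lemma sum_xx (r : Fin n → MvPolynomial (Fin n) K) :
    ∑ i, map (algebraMap K (MvPolynomial (Fin n) K ⧸ I)) (r i) * C (xx I i) = mu I r := by
  unfold mu
  exact Finset.sum_congr rfl fun i _ => mul_comm _ _

lemma sum_dd (r m : Fin n → MvPolynomial (Fin n) K) :
    ∑ i, map (algebraMap K (MvPolynomial (Fin n) K ⧸ I)) (r i) * pderiv i (mu I m) =
      mu I (dd r m) := by
  simp only [pderiv_mu]
  unfold mu dd
  simp only [Finset.mul_sum, map_sum]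
  rw [Finset.sum_comm]
  refine Finset.sum_congr rfl fun j _ => Finset.sum_congr rfl fun i _ => ?_
  rw [map_mul]
  ring

/-- all coefficients are classes of forms of degree `k` -/
def HC (k : ℕ) (f : MvPolynomial (Fin n) (MvPolynomial (Fin n) K ⧸ I)) : Prop :=
  ∀ s, coeff s f ∈ AA I k

variable {I}

lemma AA_mul {a b : ℕ} {x y : MvPolynomial (Fin n) K ⧸ I} (hx : x ∈ AA I a) (hy : y ∈ AA I b) :
    x * y ∈ AA I (a + b) := by
  obtain ⟨g, hg, rfl⟩ := mem_AA.mp hx
  obtain ⟨h, hh, rfl⟩ := mem_AA.mp hy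
  rw [← map_mul]
  exact mem_AA.mpr ⟨_, hg.mul hh, rfl⟩

lemma HC.mul {a b : ℕ} {f g : MvPolynomial (Fin n) (MvPolynomial (Fin n) K ⧸ I)}
    (hf : HC I a f) (hg : HC I b g) : HC I (a + b) (f * g) := by
  classical
  intro s
  rw [coeff_mul]
  exact Submodule.sum_mem _ fun x _ => AA_mul (hf _) (hg _)

lemma HC.sum {ι : Type*} {s : Finset ι} {a : ℕ}
    {f : ι → MvPolynomial (Fin n) (MvPolynomial (Fin n) K ⧸ I)}
    (hf : ∀ i ∈ s, HC I a (f i)) : HC I a (∑ i ∈ s, f i) := by
  intro t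
  rw [coeff_sum]
  exact Submodule.sum_mem _ fun x hx => hf x hx t

lemma hc_one : HC I 0 1 := by
  classical
  intro s
  rw [coeff_one]
  split_ifs
  · exact mem_AA.mpr ⟨1, isHomogeneous_one _ _, map_one _⟩
  · exact Submodule.zero_mem _

lemma HC.pow {a : ℕ} {f : MvPolynomial (Fin n) (MvPolynomial (Fin n) K ⧸ I)} (hf : HC I 1 f) :
    HC I a (f ^ a) := by
  induction a with
  | zero => rw [pow_zero]; exact hc_one
  | succ a ih => rw [pow_succ]; exact ih.mul hf

lemma hc_mu (m : Fin n → MvPolynomial (Fin n) K) : HC I 1 (mu I m) := by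
  apply HC.sum
  intro j _ s
  rw [coeff_C_mul, coeff_map, mul_comm, ← Algebra.smul_def]
  exact Submodule.smul_mem _ _ (mem_AA.mpr ⟨X j, isHomogeneous_X K j, rfl⟩)

lemma hc_ell : HC I 1 (ell I) := by
  rw [← mu_X]
  exact hc_mu _

/-- the socle of the quotient lives in degree `σ` -/
def Soc (I : Ideal (MvPolynomial (Fin n) K)) (σ : ℕ) : Prop :=
  ∀ (j : ℕ) (w : MvPolynomial (Fin n) K), w.IsHomogeneous j → j < σ →
    (∀ i, X i * w ∈ I) → w ∈ I

lemma HC.zero_of {σ k : ℕ} (hS : Soc I σ) (hk : k < σ)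
    {f : MvPolynomial (Fin n) (MvPolynomial (Fin n) K ⧸ I)} (hf : HC I k f)
    (h : ∀ i, C (xx I i) * f = 0) : f = 0 := by
  ext s
  rw [coeff_zero]
  obtain ⟨g, hg, hgs⟩ := mem_AA.mp (hf s)
  rw [← hgs, Ideal.Quotient.eq_zero_iff_mem]
  apply hS k g hg hk
  intro i
  have h1 := congrArg (coeff s) (h i)
  rw [coeff_C_mul, coeff_zero, ← hgs] at h1
  unfold xx at h1
  rw [← map_mul, Ideal.Quotient.eq_zero_iff_mem] at h1
  exact h1

lemma nat_zero [CharZero K] {N : ℕ} (hN : N ≠ 0)
    {f : MvPolynomial (Fin n) (MvPolynomial (Fin n) K ⧸ I)} (h : ((N : ℕ) : MvPolynomial (Fin n)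
      (MvPolynomial (Fin n) K ⧸ I)) * f = 0) : f = 0 := by
  have h1 : (C (algebraMap K (MvPolynomial (Fin n) K ⧸ I) ((N : K)⁻¹)) :
      MvPolynomial (Fin n) (MvPolynomial (Fin n) K ⧸ I)) *
        ((N : ℕ) : MvPolynomial (Fin n) (MvPolynomial (Fin n) K ⧸ I)) = 1 := by
    have h2 : ((N : ℕ) : MvPolynomial (Fin n) (MvPolynomial (Fin n) K ⧸ I)) =
        C (algebraMap K (MvPolynomial (Fin n) K ⧸ I) (N : K)) := by
      rw [map_natCast, map_natCast]
    rw [h2, ← map_mul, ← map_mul, inv_mul_cancel₀ (Nat.cast_ne_zero.mpr hN), map_one, map_one]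
  have h3 := congrArg (fun z => C (algebraMap K (MvPolynomial (Fin n) K ⧸ I) ((N : K)⁻¹)) * z) h
  simp only [mul_zero, ← mul_assoc] at h3
  rwa [h1, one_mul] at h3

/-- the derivative of `ℓ ^ (a + 1) f` -/
lemma deriv_ell (i : Fin n) (a : ℕ) (f : MvPolynomial (Fin n) (MvPolynomial (Fin n) K ⧸ I)) :
    pderiv i (ell I ^ (a + 1) * f) =
      ((a + 1 : ℕ) : MvPolynomial (Fin n) (MvPolynomial (Fin n) K ⧸ I)) * (ell I ^ a *
        (C (xx I i) * f)) + ell I ^ (a + 1) * pderiv i f := by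
  rw [Derivation.leibniz, Derivation.leibniz_pow, pderiv_ell]
  simp only [smul_eq_mul, nsmul_eq_mul, Nat.add_sub_cancel]
  ring

/-- the powers of the generic linear form do not vanish -/
theorem ell_pow_ne [CharZero K] {σ : ℕ} (hS : Soc I σ) (hI : (1 : MvPolynomial (Fin n) K) ∉ I) :
    ∀ k, k ≤ σ → ell I ^ k ≠ 0 := by
  intro k
  induction k with
  | zero =>
    intro _ h
    rw [pow_zero] at h
    have h1 := congrArg (coeff 0) h
    rw [coeff_zero_one, coeff_zero] at h1
    apply hI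
    rw [← Ideal.Quotient.eq_zero_iff_mem, map_one]
    exact h1
  | succ k ih =>
    intro hk h
    apply ih (by omega)
    apply HC.zero_of hS (show k < σ by omega) (HC.pow hc_ell)
    intro i
    have h1 := congrArg (pderiv i) h
    rw [← mul_one (ell I ^ (k + 1)), deriv_ell, map_zero, pderiv_one, mul_zero, add_zero,
      mul_one] at h1
    have h2 := nat_zero (by omega) h1
    rw [mul_comm]
    exact h2

/-- **Gordan–Noether identities.** -/
theorem gn [CharZero K] {σ s : ℕ} (hS : Soc I σ) (hs : s + 2 ≤ σ)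
    {m : Fin n → MvPolynomial (Fin n) K} (h : ell I ^ s * mu I m = 0) :
    ∀ b, b ≤ s → ell I ^ (s - b) * mu I m ^ (b + 1) = 0 := by
  intro b
  induction b with
  | zero => intro _; simpa using h
  | succ b ih =>
    intro hb
    have h1 := ih (by omega)
    obtain ⟨a, ha⟩ : ∃ a, s - b = a + 1 := ⟨s - b - 1, by omega⟩
    have ha' : s - (b + 1) = a := by omega
    rw [ha'] 
    rw [ha] at h1
    apply HC.zero_of hS (show a + (b + 1 + 1) < σ by omega) ((HC.pow hc_ell).mul (HC.pow (hc_mu m)))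
    intro i
    have h2 := congrArg (pderiv i) h1
    rw [deriv_ell, map_zero, Derivation.leibniz_pow] at h2
    simp only [smul_eq_mul, nsmul_eq_mul, Nat.add_sub_cancel] at h2
    apply nat_zero (N := a + 1) (by omega)
    have h3 := congrArg (fun z => mu I m * z) h2
    simp only [mul_zero] at h3
    linear_combination h3 - ((b + 1 : ℕ) : MvPolynomial (Fin n) (MvPolynomial (Fin n) K ⧸ I)) *
      pderiv i (mu I m) * h1

/-- the derivative of a solution in the direction of a solution is a solution -/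
theorem dd_mem [CharZero K] {σ s : ℕ} (hS : Soc I σ) (hs : s + 2 ≤ σ) (hs1 : 1 ≤ s)
    {m r : Fin n → MvPolynomial (Fin n) K} (h : ell I ^ s * mu I m = 0)
    (hr : ell I ^ s * mu I r = 0) : ell I ^ s * mu I (dd r m) = 0 := by
  obtain ⟨a, rfl⟩ : ∃ a, s = a + 1 := ⟨s - 1, by omega⟩
  have h0 : ∀ i, ((a + 1 : ℕ) : MvPolynomial (Fin n) (MvPolynomial (Fin n) K ⧸ I)) *
      (ell I ^ a * (C (xx I i) * mu I m)) + ell I ^ (a + 1) * pderiv i (mu I m) = 0 := by
    intro i
    have h2 := congrArg (pderiv i) h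
    rwa [deriv_ell, map_zero] at h2
  have h1 : ell I ^ a * (mu I m * mu I r) = 0 := by
    apply HC.zero_of hS (show a + (1 + 1) < σ by omega)
      ((HC.pow hc_ell).mul ((hc_mu m).mul (hc_mu r)))
    intro i
    apply nat_zero (N := a + 1) (by omega)
    linear_combination mu I r * h0 i - pderiv i (mu I m) * hr
  have h2 : ∑ i, map (algebraMap K (MvPolynomial (Fin n) K ⧸ I)) (r i) *
      (((a + 1 : ℕ) : MvPolynomial (Fin n) (MvPolynomial (Fin n) K ⧸ I)) *
      (ell I ^ a * (C (xx I i) * mu I m)) + ell I ^ (a + 1) * pderiv i (mu I m)) = 0 :=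
    Finset.sum_eq_zero fun i _ => by rw [h0, mul_zero]
  have h3 : ∑ i, map (algebraMap K (MvPolynomial (Fin n) K ⧸ I)) (r i) *
      (((a + 1 : ℕ) : MvPolynomial (Fin n) (MvPolynomial (Fin n) K ⧸ I)) *
      (ell I ^ a * (C (xx I i) * mu I m)) + ell I ^ (a + 1) * pderiv i (mu I m)) =
      ((a + 1 : ℕ) : MvPolynomial (Fin n) (MvPolynomial (Fin n) K ⧸ I)) *
        (ell I ^ a * mu I m) * (∑ i, map (algebraMap K (MvPolynomial (Fin n) K ⧸ I)) (r i) *
          C (xx I i)) + ell I ^ (a + 1) *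
        ∑ i, map (algebraMap K (MvPolynomial (Fin n) K ⧸ I)) (r i) * pderiv i (mu I m) := by
    rw [Finset.mul_sum, Finset.mul_sum, ← Finset.sum_add_distrib]
    refine Finset.sum_congr rfl fun i _ => ?_
    ring
  rw [h3, sum_xx, sum_dd] at h2
  linear_combination h2 - ((a + 1 : ℕ) : MvPolynomial (Fin n) (MvPolynomial (Fin n) K ⧸ I)) * h1

/-- the derivative of a solution in the direction of the generic linear form is a solution -/
theorem dd_ell [CharZero K] {s : ℕ} (hs1 : 1 ≤ s)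
    {m : Fin n → MvPolynomial (Fin n) K} (h : ell I ^ s * mu I m = 0) :
    ell I ^ s * mu I (dd (fun j => X j) m) = 0 := by
  obtain ⟨a, rfl⟩ : ∃ a, s = a + 1 := ⟨s - 1, by omega⟩
  have h0 : ∀ i, ((a + 1 : ℕ) : MvPolynomial (Fin n) (MvPolynomial (Fin n) K ⧸ I)) *
      (ell I ^ a * (C (xx I i) * mu I m)) + ell I ^ (a + 1) * pderiv i (mu I m) = 0 := by
    intro i
    have h2 := congrArg (pderiv i) h
    rwa [deriv_ell, map_zero] at h2
  have h2 : ∑ i, map (algebraMap K (MvPolynomial (Fin n) K ⧸ I)) (X i : MvPolynomial (Fin n) K) *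
      (((a + 1 : ℕ) : MvPolynomial (Fin n) (MvPolynomial (Fin n) K ⧸ I)) *
      (ell I ^ a * (C (xx I i) * mu I m)) + ell I ^ (a + 1) * pderiv i (mu I m)) = 0 :=
    Finset.sum_eq_zero fun i _ => by rw [h0, mul_zero]
  have h3 : ∑ i, map (algebraMap K (MvPolynomial (Fin n) K ⧸ I)) (X i : MvPolynomial (Fin n) K) *
      (((a + 1 : ℕ) : MvPolynomial (Fin n) (MvPolynomial (Fin n) K ⧸ I)) *
      (ell I ^ a * (C (xx I i) * mu I m)) + ell I ^ (a + 1) * pderiv i (mu I m)) =
      ((a + 1 : ℕ) : MvPolynomial (Fin n) (MvPolynomial (Fin n) K ⧸ I)) *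
        (ell I ^ a * mu I m) * (∑ i, map (algebraMap K (MvPolynomial (Fin n) K ⧸ I))
          (X i : MvPolynomial (Fin n) K) * C (xx I i)) + ell I ^ (a + 1) *
        ∑ i, map (algebraMap K (MvPolynomial (Fin n) K ⧸ I)) (X i : MvPolynomial (Fin n) K) *
          pderiv i (mu I m) := by
    rw [Finset.mul_sum, Finset.mul_sum, ← Finset.sum_add_distrib]
    refine Finset.sum_congr rfl fun i _ => ?_
    ring
  have h4 := sum_xx I (fun j => (X j : MvPolynomial (Fin n) K))
  have h5 := sum_dd I (fun j => (X j : MvPolynomial (Fin n) K)) m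
  rw [h3, h4, h5, mu_X] at h2
  rw [pow_succ] at h2 h ⊢
  linear_combination h2 - ((a + 1 : ℕ) : MvPolynomial (Fin n) (MvPolynomial (Fin n) K ⧸ I)) * h

/-- the derivative of a vanishing monomial -/
theorem deriv_zero {a b : ℕ} {m : Fin n → MvPolynomial (Fin n) K}
    (h : ell I ^ (a + 1) * mu I m ^ (b + 1) = 0) (i : Fin n) :
    ((a + 1 : ℕ) : MvPolynomial (Fin n) (MvPolynomial (Fin n) K ⧸ I)) *
      (ell I ^ a * mu I m ^ (b + 1) * C (xx I i)) +
    ((b + 1 : ℕ) : MvPolynomial (Fin n) (MvPolynomial (Fin n) K ⧸ I)) *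
      (ell I ^ (a + 1) * mu I m ^ b * mu I (fun j => pderiv i (m j))) = 0 := by
  have h2 := congrArg (pderiv i) h
  rw [deriv_ell, map_zero, Derivation.leibniz_pow, pderiv_mu] at h2
  simp only [smul_eq_mul, nsmul_eq_mul, Nat.add_sub_cancel] at h2
  linear_combination h2

theorem deriv_zero' {b : ℕ} {m : Fin n → MvPolynomial (Fin n) K}
    (h : mu I m ^ (b + 1) = 0) (i : Fin n) :
    ((b + 1 : ℕ) : MvPolynomial (Fin n) (MvPolynomial (Fin n) K ⧸ I)) *
      (mu I m ^ b * mu I (fun j => pderiv i (m j))) = 0 := by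
  have h2 := congrArg (pderiv i) h
  rw [map_zero, Derivation.leibniz_pow, pderiv_mu] at h2
  simp only [smul_eq_mul, nsmul_eq_mul, Nat.add_sub_cancel] at h2
  linear_combination h2

end Pool.Agent.Q8.GC
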