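import Pool.Agent.Q8.GC.Ker

/-!
A minimal generic solution, its values at a generic point and the derivative of the solution.
-/

open MvPolynomial
open Pool.Agent.W515.SLP (AnnP Deg annP_zero annP_of_gt annP_of_homog lin)
open TH130CI
open H503R3.QCI (NZD)
open Pool.Agent.Y204.LF (OpenC)

namespace Pool.Agent.Q8.GC

variable {K : Type*} [Field K] {n : ℕ} {I : Ideal (MvPolynomial (Fin n) K)}

/-- **A solution of minimal support.** -/
theorem exists_min [CharZero K] {σ s : ℕ} (hS : Soc I σ) (hs : s + 2 ≤ σ) (hs1 : 1 ≤ s)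
    (h : ∃ m : Fin n → MvPolynomial (Fin n) K, m ≠ 0 ∧ ell I ^ s * mu I m = 0) :
    ∃ (m : Fin n → MvPolynomial (Fin n) K) (j0 : Fin n), m j0 ≠ 0 ∧ ell I ^ s * mu I m = 0 ∧
      (∀ j, m j0 * dd m m j = dd m m j0 * m j) ∧
      (∀ j, m j0 * dd (fun j => X j) m j = dd (fun j => X j) m j0 * m j) := by
  classical
  let P : ℕ → Prop := fun k => ∃ m : Fin n → MvPolynomial (Fin n) K,
    (m ≠ 0 ∧ ell I ^ s * mu I m = 0) ∧ (Finset.univ.filter fun j => m j ≠ 0).card = k
  have hP : ∃ k, P k := by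
    obtain ⟨m, hm⟩ := h
    exact ⟨_, m, hm, rfl⟩
  obtain ⟨m, ⟨hm0, hm⟩, hcard⟩ := Nat.find_spec hP
  have hmin : ∀ w : Fin n → MvPolynomial (Fin n) K, ell I ^ s * mu I w = 0 →
      (Finset.univ.filter fun j => w j ≠ 0).card < (Finset.univ.filter fun j => m j ≠ 0).card →
      w = 0 := by
    intro w hw hlt
    by_contra hw0
    rw [hcard] at hlt
    exact Nat.find_min hP hlt ⟨w, ⟨hw0, hw⟩, rfl⟩
  obtain ⟨j0, hj0⟩ : ∃ j0, m j0 ≠ 0 := by
    by_contra hcon
    push Not at hcon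
    exact hm0 (funext hcon)
  have key : ∀ w : Fin n → MvPolynomial (Fin n) K, ell I ^ s * mu I w = 0 →
      (∀ j, m j = 0 → w j = 0) → ∀ j, m j0 * w j = w j0 * m j := by
    intro w hw hsup j
    have h1 := hmin (fun j => m j0 * w j - w j0 * m j) (by
      rw [mu_sub, mu_mul, mu_mul]
      linear_combination map (algebraMap K (MvPolynomial (Fin n) K ⧸ I)) (m j0) * hw -
        map (algebraMap K (MvPolynomial (Fin n) K ⧸ I)) (w j0) * hm) (by
      apply Finset.card_lt_card
      rw [Finset.ssubset_iff_of_subset]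
      · refine ⟨j0, Finset.mem_filter.mpr ⟨Finset.mem_univ _, hj0⟩, ?_⟩
        intro hmem
        exact (Finset.mem_filter.mp hmem).2 (by ring)
      · intro j hj
        rw [Finset.mem_filter] at hj ⊢
        refine ⟨Finset.mem_univ _, fun hz => hj.2 ?_⟩
        rw [hz, hsup j hz, mul_zero, mul_zero, sub_zero])
    exact sub_eq_zero.mp (congrFun h1 j)
  have hdd : ∀ (r : Fin n → MvPolynomial (Fin n) K) j, m j = 0 → dd r m j = 0 := by
    intro r j hj
    rw [dd]
    refine Finset.sum_eq_zero fun i _ => ?_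
    rw [hj, map_zero, mul_zero]
  exact ⟨m, j0, hj0, hm, key _ (dd_mem hS hs hs1 hm hm) (hdd m), key _ (dd_ell hs1 hm) (hdd _)⟩

/-- the derivative of `m` at `q` -/
noncomputable def MM (q : Fin n → K) (m : Fin n → MvPolynomial (Fin n) K) :
    (Fin n → K) →ₗ[K] (Fin n → K) where
  toFun u j := ∑ i, u i * eval q (pderiv i (m j))
  map_add' u v := by
    ext j
    simp only [Pi.add_apply, add_mul, Finset.sum_add_distrib]
  map_smul' a u := by
    ext j
    simp only [Pi.smul_apply, smul_eq_mul, RingHom.id_apply, Finset.mul_sum, mul_assoc]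

lemma MM_apply (q : Fin n → K) (m : Fin n → MvPolynomial (Fin n) K) (u : Fin n → K) (j : Fin n) :
    MM q m u j = ∑ i, u i * eval q (pderiv i (m j)) := rfl

lemma MM_vl (q : Fin n → K) (r m : Fin n → MvPolynomial (Fin n) K) :
    MM q m (vl q r) = vl q (dd r m) := by
  ext j
  rw [MM_apply, vl, dd, map_sum]
  refine Finset.sum_congr rfl fun i _ => ?_
  rw [map_mul]
  rfl

lemma MM_mem {q : Fin n → K} {r m : Fin n → MvPolynomial (Fin n) K} {j0 : Fin n}
    (hq : eval q (m j0) ≠ 0) (h : ∀ j, m j0 * dd r m j = dd r m j0 * m j) :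
    MM q m (vl q r) ∈ Submodule.span K {vl q m} := by
  rw [MM_vl, Submodule.mem_span_singleton]
  refine ⟨(eval q (m j0))⁻¹ * eval q (dd r m j0), ?_⟩
  ext j
  have h1 := congrArg (eval q) (h j)
  rw [map_mul, map_mul] at h1
  change (eval q (m j0))⁻¹ * eval q (dd r m j0) * eval q (m j) = eval q (dd r m j)
  rw [mul_assoc, ← h1, ← mul_assoc, inv_mul_cancel₀ hq, one_mul]

lemma nat_mem [CharZero K] {N : ℕ} (hN : N ≠ 0) {x : MvPolynomial (Fin n) K}
    (h : ((N : ℕ) : MvPolynomial (Fin n) K) * x ∈ I) : x ∈ I := by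
  have h1 := I.mul_mem_left (C ((N : K)⁻¹)) h
  have h2 : C ((N : K)⁻¹) * (((N : ℕ) : MvPolynomial (Fin n) K) * x) = x := by
    have h3 : ((N : ℕ) : MvPolynomial (Fin n) K) = C (N : K) := by rw [map_natCast]
    rw [h3, ← mul_assoc, ← map_mul, inv_mul_cancel₀ (Nat.cast_ne_zero.mpr hN), map_one, one_mul]
  rwa [h2] at h1

lemma lin_MM (q u : Fin n → K) (m : Fin n → MvPolynomial (Fin n) K) :
    (lin (MM q m u) : MvPolynomial (Fin n) K) =
      ∑ i, C (u i) * lin (vl q fun j => pderiv i (m j)) := by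
  simp only [lin, Finset.mul_sum]
  rw [Finset.sum_comm]
  refine Finset.sum_congr rfl fun j _ => ?_
  rw [MM_apply, map_sum, Finset.sum_mul]
  refine Finset.sum_congr rfl fun i _ => ?_
  rw [map_mul, mul_assoc]
  rfl

/-- the derivative of a vanishing monomial at a point -/
lemma ev_deriv {a b : ℕ} {m : Fin n → MvPolynomial (Fin n) K}
    (h : ell I ^ (a + 1) * mu I m ^ (b + 1) = 0) (q u : Fin n → K) :
    ((a + 1 : ℕ) : MvPolynomial (Fin n) K) * (lin q ^ a * lin (vl q m) ^ (b + 1) * lin u) +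
      ((b + 1 : ℕ) : MvPolynomial (Fin n) K) *
        (lin q ^ (a + 1) * lin (vl q m) ^ b * lin (MM q m u)) ∈ I := by
  have h1 : ∀ i, ((a + 1 : ℕ) : MvPolynomial (Fin n) K) *
      (lin q ^ a * lin (vl q m) ^ (b + 1) * X i) + ((b + 1 : ℕ) : MvPolynomial (Fin n) K) *
        (lin q ^ (a + 1) * lin (vl q m) ^ b * lin (vl q fun j => pderiv i (m j))) ∈ I := by
    intro i
    have h2 := congrArg (ev q) (deriv_zero h i)
    simp only [map_mul, map_add, map_pow, map_natCast, ev_ell, ev_mu, ev_C, map_zero, xx] at h2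
    rw [← Ideal.Quotient.eq_zero_iff_mem]
    simp only [map_mul, map_add, map_pow, map_natCast]
    exact h2
  have h2 : ∑ i, C (u i) * (((a + 1 : ℕ) : MvPolynomial (Fin n) K) *
      (lin q ^ a * lin (vl q m) ^ (b + 1) * X i) + ((b + 1 : ℕ) : MvPolynomial (Fin n) K) *
        (lin q ^ (a + 1) * lin (vl q m) ^ b * lin (vl q fun j => pderiv i (m j)))) ∈ I :=
    I.sum_mem fun i _ => I.mul_mem_left _ (h1 i)
  convert h2 using 1
  have e0 : (lin u : MvPolynomial (Fin n) K) = ∑ i, C (u i) * X i := rfl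
  rw [lin_MM, e0, Finset.mul_sum, Finset.mul_sum, Finset.mul_sum, Finset.mul_sum,
    ← Finset.sum_add_distrib]
  refine Finset.sum_congr rfl fun i _ => ?_
  ring

lemma ev_deriv' [CharZero K] {b : ℕ} {m : Fin n → MvPolynomial (Fin n) K}
    (h : mu I m ^ (b + 1) = 0) (q u : Fin n → K) :
    lin (vl q m) ^ b * lin (MM q m u) ∈ I := by
  have h1 : ∀ i, lin (vl q m) ^ b * lin (vl q fun j => pderiv i (m j)) ∈ I := by
    intro i
    have h2 := congrArg (ev q) (deriv_zero' h i)
    simp only [map_mul, map_pow, map_natCast, ev_mu, map_zero] at h2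
    apply nat_mem (N := b + 1) (by omega)
    rw [← Ideal.Quotient.eq_zero_iff_mem]
    simp only [map_mul, map_pow, map_natCast]
    exact h2
  rw [lin_MM, Finset.mul_sum]
  refine I.sum_mem fun i _ => ?_
  have e : (lin (vl q m) ^ b * (C (u i) * lin (vl q fun j => pderiv i (m j))) :
      MvPolynomial (Fin n) K) = C (u i) * (lin (vl q m) ^ b * lin (vl q fun j => pderiv i (m j))) := by
    ring
  rw [e]
  exact I.mul_mem_left _ (h1 i)

/-- a point of a nonempty open set outside a hypersurface -/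
lemma exists_generic [Infinite K] {S : Set (Fin n → K)} (hS : OpenC S) (hne : S.Nonempty)
    {P : MvPolynomial (Fin n) K} (hP : P ≠ 0) : ∃ q ∈ S, eval q P ≠ 0 := by
  obtain ⟨q1, hq1⟩ := hne
  obtain ⟨q2, hq2⟩ : ∃ q2, eval q2 P ≠ 0 := by
    by_contra hcon
    push Not at hcon
    exact hP (MvPolynomial.funext fun q => by rw [hcon, map_zero])
  let p : Polynomial K := MvPolynomial.aeval
    (fun i => Polynomial.C (q1 i) + Polynomial.X * Polynomial.C ((q2 - q1) i)) P
  have hp : ∀ t, p.eval t = eval (q1 + t • (q2 - q1)) P := by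
    intro t
    have h1 : (Polynomial.aeval t).comp (MvPolynomial.aeval
        (fun i => Polynomial.C (q1 i) + Polynomial.X * Polynomial.C ((q2 - q1) i))) =
        (MvPolynomial.aeval (q1 + t • (q2 - q1)) : MvPolynomial (Fin n) K →ₐ[K] K) := by
      apply MvPolynomial.algHom_ext
      intro i
      simp
    have h2 := AlgHom.congr_fun h1 P
    rw [AlgHom.comp_apply] at h2
    rw [← Polynomial.coe_aeval_eq_eval, ← MvPolynomial.coe_aeval_eq_eval]
    exact h2
  have hp0 : p ≠ 0 := by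
    intro h0
    apply hq2
    have := hp 1
    rw [h0, Polynomial.eval_zero, one_smul, add_sub_cancel] at this
    exact this.symm
  have hfin : ({t : K | p.IsRoot t} ∪ {t : K | q1 + t • (q2 - q1) ∉ S}).Finite :=
    (Polynomial.finite_setOfPred_isRoot hp0).union (hS q1 hq1 _)
  obtain ⟨t, ht⟩ := hfin.exists_notMem
  rw [Set.mem_union, not_or] at ht
  refine ⟨q1 + t • (q2 - q1), ?_, ?_⟩
  · by_contra h
    exact ht.2 h
  · rw [← hp]
    exact ht.1

/-- **The generic point.** -/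
theorem exists_point [Infinite K] {S : Set (Fin n → K)} (hS : OpenC S) (hne : S.Nonempty) (N : ℕ)
    {m : Fin n → MvPolynomial (Fin n) K} {j0 : Fin n} (hj0 : m j0 ≠ 0) :
    ∃ q ∈ S, eval q (m j0) ≠ 0 ∧ ∀ a b, a ≤ N → b ≤ N →
      (lin q ^ a * lin (vl q m) ^ b ∈ I ↔ ell I ^ a * mu I m ^ b = 0) := by
  classical
  have hψ : ∀ x : ℕ × ℕ, ∃ P : MvPolynomial (Fin n) K, P ≠ 0 ∧ (ell I ^ x.1 * mu I m ^ x.2 ≠ 0 →
      ∀ q, eval q P ≠ 0 → lin q ^ x.1 * lin (vl q m) ^ x.2 ∉ I) := by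
    intro x
    by_cases hx : ell I ^ x.1 * mu I m ^ x.2 = 0
    · exact ⟨1, one_ne_zero, fun h => absurd hx h⟩
    · obtain ⟨ψ, hψ⟩ := exists_cmap_ne (K := K) hx
      refine ⟨_, hψ, fun _ q hq hmem => hq ?_⟩
      have e : ev q (ell I ^ x.1 * mu I m ^ x.2) =
          Ideal.Quotient.mk I (lin q ^ x.1 * lin (vl q m) ^ x.2) := by
        rw [map_mul, map_pow, map_pow, ev_ell, ev_mu, ← map_pow, ← map_pow, ← map_mul]
      rw [eval_cmap, e, Ideal.Quotient.eq_zero_iff_mem.mpr hmem, map_zero]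
  choose P hP0 hP using hψ
  set s : Finset (ℕ × ℕ) := Finset.range (N + 1) ×ˢ Finset.range (N + 1) with hs
  have hprod : m j0 * ∏ x ∈ s, P x ≠ 0 :=
    mul_ne_zero hj0 (Finset.prod_ne_zero_iff.mpr fun x _ => hP0 x)
  obtain ⟨q, hqS, hq⟩ := exists_generic hS hne hprod
  rw [map_mul, map_prod] at hq
  refine ⟨q, hqS, left_ne_zero_of_mul hq, fun a b ha hb => ⟨?_, ?_⟩⟩
  · intro h
    by_contra hcon
    refine hP (a, b) hcon q ?_ h
    refine Finset.prod_ne_zero_iff.mp (right_ne_zero_of_mul hq) (a, b) ?_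
    rw [hs, Finset.mem_product, Finset.mem_range, Finset.mem_range]
    exact ⟨Nat.lt_succ_of_le ha, Nat.lt_succ_of_le hb⟩
  · intro h
    exact (zero_iff I).mp h q

end Pool.Agent.Q8.GC
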