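import Pool.Agent.Q8.GC.Der

/-!
Evaluation of the generic identities and the generic kernel of the map `ℓ ^ (σ - 2)` on linear
forms.
-/

open MvPolynomial
open Pool.Agent.W515.SLP (AnnP Deg annP_zero annP_of_gt annP_of_homog lin)
open TH130CI

namespace Pool.Agent.Q8.GC

variable {K : Type*} [Field K] {n : ℕ}

section cmap

variable {A : Type*} [CommRing A] [Algebra K A]

/-- a functional applied to the coefficients -/
noncomputable def cmap (ψ : A →ₗ[K] K) (f : MvPolynomial (Fin n) A) : MvPolynomial (Fin n) K :=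
  ∑ s ∈ f.support, monomial s (ψ (coeff s f))

lemma coeff_cmap (ψ : A →ₗ[K] K) (f : MvPolynomial (Fin n) A) (s : Fin n →₀ ℕ) :
    coeff s (cmap ψ f) = ψ (coeff s f) := by
  classical
  rw [cmap, coeff_sum]
  simp only [coeff_monomial]
  rw [Finset.sum_ite_eq']
  split_ifs with h
  · rfl
  · rw [notMem_support_iff.mp h, map_zero]

/-- evaluation at a point with coordinates in `K` -/
noncomputable def ev (q : Fin n → K) : MvPolynomial (Fin n) A →+* A :=
  eval fun i => algebraMap K A (q i)

lemma eval_cmap (ψ : A →ₗ[K] K) (f : MvPolynomial (Fin n) A) (q : Fin n → K) :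
    eval q (cmap ψ f) = ψ (ev q f) := by
  have h0 : ev q f = ∑ s ∈ f.support, coeff s f * ∏ i ∈ s.support, (algebraMap K A (q i)) ^ s i :=
    eval_eq _ _
  rw [h0, cmap, map_sum, map_sum]
  refine Finset.sum_congr rfl fun s _ => ?_
  rw [eval_monomial, Finsupp.prod]
  have h : ∏ i ∈ s.support, (algebraMap K A (q i)) ^ s i =
      algebraMap K A (∏ i ∈ s.support, q i ^ s i) := by
    rw [map_prod]
    refine Finset.prod_congr rfl fun i _ => ?_
    rw [map_pow]
  rw [h, mul_comm (coeff s f), ← Algebra.smul_def, map_smul, smul_eq_mul, mul_comm]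

lemma exists_cmap_ne {f : MvPolynomial (Fin n) A} (hf : f ≠ 0) : ∃ ψ : A →ₗ[K] K, cmap ψ f ≠ 0 := by
  obtain ⟨s, hs⟩ := MvPolynomial.exists_coeff_ne_zero hf
  by_contra hcon
  push Not at hcon
  apply hs
  rw [← Module.forall_dual_apply_eq_zero_iff K]
  intro ψ
  rw [← coeff_cmap, hcon, coeff_zero]

lemma zero_of_ev [Infinite K] {f : MvPolynomial (Fin n) A} (h : ∀ q : Fin n → K, ev q f = 0) :
    f = 0 := by
  by_contra hf
  obtain ⟨ψ, hψ⟩ := exists_cmap_ne (K := K) hf
  apply hψ
  apply MvPolynomial.funext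
  intro q
  rw [eval_cmap, h, map_zero, map_zero]

lemma ev_map (q : Fin n → K) (p : MvPolynomial (Fin n) K) :
    ev q (map (algebraMap K A) p) = algebraMap K A (eval q p) := by
  rw [ev, eval_map, ← eval₂_id (R := K), eval₂_comp_left (algebraMap K A)]
  rfl

end cmap

variable (I : Ideal (MvPolynomial (Fin n) K))

/-- the value of a vector of polynomials -/
noncomputable def vl (q : Fin n → K) (m : Fin n → MvPolynomial (Fin n) K) (j : Fin n) : K :=
  eval q (m j)

lemma ev_mu (q : Fin n → K) (m : Fin n → MvPolynomial (Fin n) K) :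
    ev q (mu I m) = Ideal.Quotient.mk I (lin (vl q m)) := by
  rw [mu, lin, map_sum, map_sum]
  refine Finset.sum_congr rfl fun j _ => ?_
  rw [map_mul, map_mul, ev_map, mul_comm]
  have h1 : ev q (C (xx I j)) = xx I j := eval_C _
  rw [h1]
  rfl

lemma vl_X (q : Fin n → K) : vl q (fun j => X j) = q := by
  ext j
  exact eval_X j

lemma ev_ell (q : Fin n → K) : ev q (ell I) = Ideal.Quotient.mk I (lin q) := by
  rw [← mu_X, ev_mu, vl_X]

lemma ev_C (q : Fin n → K) (x : MvPolynomial (Fin n) K ⧸ I) : ev q (C x) = x := eval_C _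

lemma zero_iff [Infinite K] {a b : ℕ} {m : Fin n → MvPolynomial (Fin n) K} :
    ell I ^ a * mu I m ^ b = 0 ↔ ∀ q : Fin n → K, lin q ^ a * lin (vl q m) ^ b ∈ I := by
  constructor
  · intro h q
    have h1 := congrArg (ev q) h
    rw [map_mul, map_pow, map_pow, ev_ell, ev_mu, map_zero, ← map_pow, ← map_pow, ← map_mul,
      Ideal.Quotient.eq_zero_iff_mem] at h1
    exact h1
  · intro h
    apply zero_of_ev (K := K)
    intro q
    rw [map_mul, map_pow, map_pow, ev_ell, ev_mu, ← map_pow, ← map_pow, ← map_mul,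
      Ideal.Quotient.eq_zero_iff_mem]
    exact h q

variable {I}

lemma lin_single (i : Fin n) : (lin (Pi.single i 1 : Fin n → K)) = X i := linL_single i

lemma lin_sum (z : Fin n → K) : (lin z : MvPolynomial (Fin n) K) = ∑ j, z j • X j := by
  rw [lin]
  refine Finset.sum_congr rfl fun j _ => ?_
  rw [smul_eq_C_mul]

/-- a linear form whose products with the variables are killed by the functional -/
lemma mem_of_vars {φ : MvPolynomial (Fin n) K →ₗ[K] K} {σ : ℕ} (hφ : Deg φ (σ + 1))
    {w : MvPolynomial (Fin n) K} (hw : w.IsHomogeneous σ) (h : ∀ i, φ (w * X i) = 0) :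
    AnnP φ w := by
  apply annP_of_homog hφ (Nat.le_succ σ) hw
  intro v hv
  rw [Nat.add_sub_cancel_left] at hv
  have hv' : v ∈ homogeneousSubmodule (Fin n) K 1 := hv
  rw [homogeneousSubmodule_one_eq_span_X] at hv'
  clear hv
  induction hv' using Submodule.span_induction with
  | mem x hx =>
    obtain ⟨i, rfl⟩ := hx
    exact h i
  | zero => rw [mul_zero, map_zero]
  | add x y _ _ hx hy => rw [mul_add, map_add, hx, hy, add_zero]
  | smul a x _ hx => rw [mul_smul_comm, map_smul, hx, smul_zero]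

/-- **The generic kernel.** -/
theorem exists_ker [Infinite K] {φ : MvPolynomial (Fin n) K →ₗ[K] K} {s : ℕ} (hφ : Deg φ (s + 2))
    (hI : I = gor φ) {P : MvPolynomial (Fin n) K} (hP : P ≠ 0)
    (h : ∀ q : Fin n → K, eval q P ≠ 0 → ∃ z : Fin n → K, z ≠ 0 ∧ lin q ^ s * lin z ∈ I) :
    ∃ m : Fin n → MvPolynomial (Fin n) K, m ≠ 0 ∧ ell I ^ s * mu I m = 0 := by
  classical
  obtain ⟨sec, hsec⟩ := (Ideal.Quotient.mkₐ K I).toLinearMap.exists_rightInverse_of_surjective
    (LinearMap.range_eq_top.mpr (Ideal.Quotient.mkₐ_surjective K I))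
  have hsec' : ∀ g : MvPolynomial (Fin n) K, φ (sec (Ideal.Quotient.mk I g)) = φ g := by
    intro g
    have h1 : Ideal.Quotient.mk I (sec (Ideal.Quotient.mk I g)) = Ideal.Quotient.mk I g :=
      LinearMap.congr_fun hsec (Ideal.Quotient.mk I g)
    rw [Ideal.Quotient.mk_eq_mk_iff_sub_mem] at h1
    have h3 : sec (Ideal.Quotient.mk I g) - g ∈ gor φ := hI ▸ h1
    have h2 := h3 1
    rw [mul_one, map_sub, sub_eq_zero] at h2
    exact h2
  let H : Matrix (Fin n) (Fin n) (MvPolynomial (Fin n) K) := fun i j =>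
    cmap (φ ∘ₗ sec) (ell I ^ s * (C (xx I i) * C (xx I j)))
  have hH : ∀ q i j, eval q (H i j) = φ (lin q ^ s * (X i * X j)) := by
    intro q i j
    change eval q (cmap (φ ∘ₗ sec) (ell I ^ s * (C (xx I i) * C (xx I j)))) = _
    have e : ev q (ell I ^ s * (C (xx I i) * C (xx I j))) =
        Ideal.Quotient.mk I (lin q ^ s * (X i * X j)) := by
      rw [map_mul, map_pow, map_mul, ev_C, ev_C, ev_ell, xx, xx, ← map_pow, ← map_mul, ← map_mul]
    rw [eval_cmap, e]
    exact hsec' _
  have hsum : ∀ (q z : Fin n → K) (i : Fin n),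
      ∑ j, φ (lin q ^ s * (X i * X j)) * z j = φ (lin q ^ s * lin z * X i) := by
    intro q z i
    rw [lin_sum z, Finset.mul_sum, Finset.sum_mul, map_sum]
    refine Finset.sum_congr rfl fun j _ => ?_
    have e : (lin q ^ s * (z j • X j) * X i : MvPolynomial (Fin n) K) =
        z j • (lin q ^ s * (X i * X j)) := by
      rw [smul_eq_C_mul, smul_eq_C_mul]
      ring
    rw [e, map_smul, smul_eq_mul, mul_comm]
  have hdet : H.det = 0 := by
    suffices hh : P * H.det = 0 by
      rcases mul_eq_zero.mp hh with h1 | h1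
      · exact absurd h1 hP
      · exact h1
    apply MvPolynomial.funext
    intro q
    rw [map_zero, map_mul]
    by_cases hqP : eval q P = 0
    · rw [hqP, zero_mul]
    rw [mul_eq_zero]
    right
    rw [RingHom.map_det]
    obtain ⟨z, hz, hzI⟩ := h q hqP
    rw [← Matrix.exists_mulVec_eq_zero_iff]
    refine ⟨z, hz, ?_⟩
    ext i
    rw [Matrix.mulVec, dotProduct, Pi.zero_apply]
    have e1 : ∀ j, ((eval q).mapMatrix H) i j = φ (lin q ^ s * (X i * X j)) := fun j => hH q i j
    simp only [e1]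
    rw [hsum]
    rw [hI] at hzI
    exact hzI _
  obtain ⟨m, hm, hHm⟩ := Matrix.exists_mulVec_eq_zero_iff.mpr hdet
  refine ⟨m, hm, ?_⟩
  rw [← pow_one (mu I m), zero_iff]
  intro q
  rw [pow_one, hI]
  have hhom : (lin q ^ s * lin (vl q m) : MvPolynomial (Fin n) K).IsHomogeneous (s + 1) := by
    have h1 := ((lin_homog q).pow s).mul (lin_homog (vl q m))
    rwa [one_mul] at h1
  apply mem_of_vars hφ hhom
  intro i
  rw [← hsum]
  have h1 := congrFun hHm i
  rw [Matrix.mulVec, dotProduct, Pi.zero_apply] at h1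
  have h2 := congrArg (eval q) h1
  rw [map_sum, map_zero] at h2
  rw [← h2]
  refine Finset.sum_congr rfl fun j _ => ?_
  have e : eval q (H i j * m j) = eval q (H i j) * eval q (m j) := map_mul _ _ _
  rw [e, hH]
  rfl

end Pool.Agent.Q8.GC
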