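import Pool.Agent.Q8.GC.Core
import Pool.Agent.W515.SLP.Mac

/-!
Maximal rank of the maps `ℓ ^ k` in degrees `≤ 1` and `≥ σ - 1`, and the Hessian of the Macaulay
dual form.
-/

open MvPolynomial
open Pool.Agent.W515.SLP (AnnP Deg annP_zero annP_of_gt annP_of_homog lin act phi act_eq_zero_iff
  deg_phi coeff_lin_pow phi_apply phi_mul_monomial)
open H503R3.QCI (Homog NZD Reg isSocleDegree_ci gr mem_gr)
open TH130CI
open Pool.Agent.Y204.LF (extend_reg prime_of_gr reg_prefix em sum_em bound_sorted reg_lin lin_eq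
  openC_nzd exists_lin_of_reg)

namespace Pool.Agent.Q8.GC

open Module

variable {K : Type*} [Field K]

lemma one_notMem {n : ℕ} {a : Fin n → MvPolynomial (Fin n) K} {e : Fin n → ℕ}
    (ha : ∀ i, (a i).IsHomogeneous (e i)) (he : ∀ i, 1 ≤ e i) (hreg : Reg a) :
    (1 : MvPolynomial (Fin n) K) ∉ Ideal.span (Set.range a) := by
  intro h1
  obtain ⟨⟨h0, -, hh0I⟩, -⟩ := isSocleDegree_ci a e ha he hreg
  apply hh0I
  have := (Ideal.span (Set.range a)).mul_mem_left h0 h1
  rwa [mul_one] at this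

lemma lin_notMem [Infinite K] {N : ℕ} {a : Fin (N + 1) → MvPolynomial (Fin (N + 1)) K}
    {e : Fin (N + 1) → ℕ} (ha : ∀ i, (a i).IsHomogeneous (e i)) (he : ∀ i, 2 ≤ e i)
    (hreg : Reg a) (hmono : Monotone e) {z : Fin (N + 1) → K}
    (hz : (lin z : MvPolynomial (Fin (N + 1)) K) ∈ Ideal.span (Set.range a)) : z = 0 := by
  by_contra hz0
  have he1 : ∀ i, 1 ≤ e i := fun i => (by omega : 1 ≤ 2).trans (he i)
  have hli : LinearIndependent K (fun _ : Fin 1 => z) :=
    (linearIndependent_unique_iff (v := fun _ : Fin 1 => z)).mpr hz0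
  have h1 := bound_sorted ha he1 hreg hmono (v := 1) (by omega) (g := fun _ : Fin 1 => lin z)
    (ε := fun _ => 1) (fun _ => lin_homog z) (fun _ => le_rfl) (reg_lin hli)
    (b := 1) (j := 0) (isHomogeneous_one _ _) (one_notMem ha he1 hreg) (fun _ => by
      rw [mul_one]; exact hz)
  rw [Finset.sum_range_one, Pool.Agent.Y204.LF.em, dif_pos (Nat.succ_pos N)] at h1
  simp only [Nat.sub_self, Finset.sum_const_zero, Nat.add_zero] at h1
  have := he ⟨0, Nat.succ_pos N⟩
  omega

/-- **The theorem of Gordan and Noether for complete intersections.** -/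
theorem core [CharZero K] {N : ℕ} {a : Fin (N + 1) → MvPolynomial (Fin (N + 1)) K}
    {e : Fin (N + 1) → ℕ} (ha : ∀ i, (a i).IsHomogeneous (e i)) (he : ∀ i, 2 ≤ e i)
    (hreg : Reg a) (hmono : Monotone e)
    (hnum : ∀ i : Fin N, (N - 1) * (e i.castSucc - 1) ≤ ∑ k : Fin N, (e k.castSucc - 1))
    {P : MvPolynomial (Fin (N + 1)) K} (hP : P ≠ 0) :
    ∃ q : Fin (N + 1) → K, eval q P ≠ 0 ∧ ∀ z : Fin (N + 1) → K,
      lin q ^ (∑ i, (e i - 1) - 2) * lin z ∈ Ideal.span (Set.range a) → z = 0 := by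
  classical
  have he1 : ∀ i, 1 ≤ e i := fun i => (by omega : 1 ≤ 2).trans (he i)
  obtain ⟨D, hD1, hD, hnumD⟩ : ∃ D, 1 ≤ D ∧ (∀ i : Fin N, e i.castSucc ≤ D) ∧
      (N - 1) * (D - 1) ≤ ∑ i : Fin N, (e i.castSucc - 1) := by
    rcases N with _ | M
    · exact ⟨1, le_rfl, fun i => i.elim0, by simp⟩
    · refine ⟨e (Fin.last M).castSucc, he1 _, fun i => hmono ?_, hnum _⟩
      exact Fin.castSucc_le_castSucc_iff.mpr (Fin.le_last i)
  rcases Nat.eq_zero_or_pos (∑ i, (e i - 1) - 2) with h0 | hs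
  · obtain ⟨q, hq⟩ : ∃ q, eval q P ≠ 0 := by
      by_contra hcon
      push Not at hcon
      exact hP (MvPolynomial.funext fun q => by rw [hcon, map_zero])
    refine ⟨q, hq, fun z hz => ?_⟩
    rw [h0, pow_zero, one_mul] at hz
    exact lin_notMem ha he hreg hmono hz
  · by_contra hcon
    push Not at hcon
    set s := ∑ i, (e i - 1) - 2 with hsdef
    have hσ : ∑ i, (e i - 1) = s + 2 := by omega
    obtain ⟨φ, hφ, hI⟩ := ci_gor ha he1 hreg
    rw [hσ] at hφ
    have hS : Soc (Ideal.span (Set.range a)) (s + 2) := by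
      intro j w hw hj hXw
      rw [← hσ] at hj
      exact socle_ci _ a e ha he1 (sreg_of_reg ha he1 hreg) rfl j w hw hj hXw
    have hker := exists_ker hφ hI hP (fun q hq => by
      obtain ⟨z, hz1, hz2⟩ := hcon q hq
      exact ⟨z, hz2, hz1⟩)
    obtain ⟨m, j0, hj0, hm, hmm, hmX⟩ := exists_min hS le_rfl hs hker
    have hreg0 : Reg (fun i : Fin N => a i.castSucc) := reg_prefix (Nat.le_succ N) hreg
    have hne : {q : Fin (N + 1) → K |
        NZD (Ideal.span (Set.range fun i : Fin N => a i.castSucc)) (lin q)}.Nonempty :=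
      exists_lin_of_reg (Nat.lt_succ_self N) (fun i => ha _) (fun i => he1 _) hreg0
    obtain ⟨q, hqS, hqj, hq⟩ := exists_point (I := Ideal.span (Set.range a))
      (openC_nzd (Ideal.span (Set.range fun i : Fin N => a i.castSucc))) hne (s + 2) hj0
    exact contra ha he hreg hmono hD1 hD hnumD hs hσ hm hmm hmX hqS hqj
      (fun x y hx hy => hq x y hx hy)

/-- a point at which also the top power does not vanish -/
theorem core' [CharZero K] {N : ℕ} {a : Fin (N + 1) → MvPolynomial (Fin (N + 1)) K}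
    {e : Fin (N + 1) → ℕ} (ha : ∀ i, (a i).IsHomogeneous (e i)) (he : ∀ i, 2 ≤ e i)
    (hreg : Reg a) (hmono : Monotone e)
    (hnum : ∀ i : Fin N, (N - 1) * (e i.castSucc - 1) ≤ ∑ k : Fin N, (e k.castSucc - 1)) :
    ∃ q : Fin (N + 1) → K, lin q ^ (∑ i, (e i - 1)) ∉ Ideal.span (Set.range a) ∧
      ∀ z : Fin (N + 1) → K,
        lin q ^ (∑ i, (e i - 1) - 2) * lin z ∈ Ideal.span (Set.range a) → z = 0 := by
  classical
  have he1 : ∀ i, 1 ≤ e i := fun i => (by omega : 1 ≤ 2).trans (he i)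
  have hS : Soc (Ideal.span (Set.range a)) (∑ i, (e i - 1)) := fun j w hw hj hXw =>
    socle_ci _ a e ha he1 (sreg_of_reg ha he1 hreg) rfl j w hw hj hXw
  have h1 := ell_pow_ne hS (one_notMem ha he1 hreg) _ le_rfl
  obtain ⟨ψ, hψ⟩ := exists_cmap_ne (K := K) h1
  obtain ⟨q, hq1, hq2⟩ := core ha he hreg hmono hnum hψ
  refine ⟨q, ?_, hq2⟩
  intro hmem
  apply hq1
  rw [eval_cmap, map_pow, ev_ell, ← map_pow, Ideal.Quotient.eq_zero_iff_mem.mpr hmem, map_zero]

/-- a form of degree one is `lin` of its coefficients -/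
lemma eq_lin {n : ℕ} {g : MvPolynomial (Fin n) K} (hg : g.IsHomogeneous 1) : ∃ z, g = lin z := by
  have hv' : g ∈ homogeneousSubmodule (Fin n) K 1 := hg
  rw [homogeneousSubmodule_one_eq_span_X] at hv'
  clear hg
  induction hv' using Submodule.span_induction with
  | mem x hx =>
    obtain ⟨i, rfl⟩ := hx
    exact ⟨_, (linL_single i).symm⟩
  | zero => exact ⟨0, (map_zero (linL K n)).symm⟩
  | add x y _ _ hx hy =>
    obtain ⟨u, rfl⟩ := hx
    obtain ⟨v, rfl⟩ := hy
    exact ⟨u + v, (map_add (linL K n) u v).symm⟩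
  | smul c x _ hx =>
    obtain ⟨u, rfl⟩ := hx
    exact ⟨c • u, (map_smul (linL K n) c u).symm⟩

/-- **Maximal rank in degrees `≤ 1` and `≥ σ - 1`.** -/
theorem maps {n : ℕ} {I : Ideal (MvPolynomial (Fin n) K)} {φ : MvPolynomial (Fin n) K →ₗ[K] K}
    {σ : ℕ} (hφ : Deg φ σ) (hI : I = gor φ) {q : Fin n → K} (hq : lin q ^ σ ∉ I)
    (hinj : ∀ z : Fin n → K, lin q ^ (σ - 2) * lin z ∈ I → z = 0) (i k : ℕ)
    (hik : i ≤ 1 ∨ σ ≤ i + k + 1) :
    (∀ g ∈ homogeneousSubmodule (Fin n) K i, lin q ^ k * g ∈ I → g ∈ I) ∨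
    (∀ h ∈ homogeneousSubmodule (Fin n) K (i + k), ∃ g ∈ homogeneousSubmodule (Fin n) K i,
      h - lin q ^ k * g ∈ I) := by
  classical
  have hpow : ∀ k, k ≤ σ → lin q ^ k ∉ I := by
    intro k hk h
    apply hq
    obtain ⟨j, rfl⟩ := Nat.exists_eq_add_of_le hk
    rw [pow_add]
    exact I.mul_mem_right _ h
  rcases lt_or_ge σ (i + k) with h1 | h1
  · -- zero target
    right
    intro h hh
    refine ⟨0, Submodule.zero_mem _, ?_⟩
    rw [mul_zero, sub_zero, hI]
    exact annP_of_gt hφ h1 hh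
  rcases Nat.eq_or_lt_of_le h1 with h2 | h2
  · -- the top degree
    right
    intro h hh
    have hφ0 : φ (lin q ^ σ) ≠ 0 := by
      intro h0
      apply hq
      rw [hI]
      have hhom : (lin q ^ σ : MvPolynomial (Fin n) K).IsHomogeneous σ := by
        have := (lin_homog q).pow σ
        rwa [one_mul] at this
      refine annP_of_homog hφ le_rfl hhom fun v hv => ?_
      rw [Nat.sub_self] at hv
      have hv' : v = C (coeff 0 v) := by
        rw [← totalDegree_eq_zero_iff_eq_C]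
        exact Nat.le_zero.mp hv.totalDegree_le
      rw [hv', mul_comm, ← smul_eq_C_mul, map_smul, h0, smul_zero]
    refine ⟨(φ h * (φ (lin q ^ σ))⁻¹) • lin q ^ i, ?_, ?_⟩
    · apply Submodule.smul_mem
      have := (lin_homog q).pow i
      rwa [one_mul] at this
    · rw [hI]
      have hhom : (h - lin q ^ k * ((φ h * (φ (lin q ^ σ))⁻¹) • lin q ^ i)).IsHomogeneous σ := by
        have hh' : h.IsHomogeneous σ := h2 ▸ (hh : h.IsHomogeneous (i + k))
        refine hh'.sub ?_
        have h3 := ((lin_homog q).pow k).mul (((homogeneousSubmodule (Fin n) K (1 * i)).smul_mem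
          (φ h * (φ (lin q ^ σ))⁻¹) ((lin_homog q).pow i) :
            (φ h * (φ (lin q ^ σ))⁻¹) • lin q ^ i ∈ homogeneousSubmodule (Fin n) K (1 * i)) :
            ((φ h * (φ (lin q ^ σ))⁻¹) • lin q ^ i).IsHomogeneous (1 * i))
        rwa [one_mul, one_mul, add_comm, h2] at h3
      refine annP_of_homog hφ le_rfl hhom fun v hv => ?_
      rw [Nat.sub_self] at hv
      have hv' : v = C (coeff 0 v) := by
        rw [← totalDegree_eq_zero_iff_eq_C]
        exact Nat.le_zero.mp hv.totalDegree_le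
      rw [hv', mul_comm, ← smul_eq_C_mul, map_smul, map_sub, mul_smul_comm, map_smul, ← pow_add,
        add_comm k i, h2, smul_eq_mul (φ h * (φ (lin q ^ σ))⁻¹), mul_assoc,
        inv_mul_cancel₀ hφ0, mul_one, sub_self, smul_zero]
  -- now `i + k < σ`
  rcases Nat.lt_or_ge i 2 with hi | hi
  · left
    intro g hg hmem
    rcases Nat.eq_zero_or_pos i with h0 | h0
    · subst h0
      have hg' : g = C (coeff 0 g) := by
        rw [← totalDegree_eq_zero_iff_eq_C]
        exact Nat.le_zero.mp (IsHomogeneous.totalDegree_le hg)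
      by_cases hc : coeff 0 g = 0
      · rw [hg', hc, map_zero]
        exact I.zero_mem
      · exfalso
        apply hpow k (by omega)
        rw [hg'] at hmem
        have h3 := I.mul_mem_left (C (coeff 0 g)⁻¹) hmem
        have h4 : C (coeff 0 g)⁻¹ * (lin q ^ k * C (coeff 0 g)) = lin q ^ k := by
          rw [mul_comm (lin q ^ k), ← mul_assoc, ← map_mul, inv_mul_cancel₀ hc, map_one, one_mul]
        rwa [h4] at h3
    · obtain rfl : i = 1 := by omega
      obtain ⟨z, rfl⟩ := eq_lin (hg : g.IsHomogeneous 1)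
      have hz : z = 0 := by
        apply hinj
        obtain ⟨j, hj⟩ : ∃ j, σ - 2 = j + k := ⟨σ - 2 - k, by omega⟩
        rw [hj, pow_add, mul_assoc]
        exact I.mul_mem_left _ hmem
      rw [hz]
      have : (lin (0 : Fin n → K) : MvPolynomial (Fin n) K) = 0 := map_zero (linL K n)
      rw [this]
      exact I.zero_mem
  · right
    have hσ : i + k + 1 = σ := by omega
    intro h hh
    -- the bijection in degree one
    let B : (Fin n → K) →ₗ[K] (Fin n → K) :=
      LinearMap.pi fun i => φ ∘ₗ (LinearMap.mulLeft K (lin q ^ (σ - 2) * X i)) ∘ₗ linL K n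
    have hB : ∀ z i, B z i = φ (lin q ^ (σ - 2) * X i * lin z) := fun z i => rfl
    have hhomz : ∀ z : Fin n → K,
        (lin q ^ (σ - 2) * lin z : MvPolynomial (Fin n) K).IsHomogeneous (i + k) := by
      intro z
      have h3 := ((lin_homog q).pow (σ - 2)).mul (lin_homog z)
      rwa [one_mul, show σ - 2 + 1 = i + k by omega] at h3
    have hφ' : Deg φ (i + k + 1) := by rw [hσ]; exact hφ
    have hBinj : Function.Injective B := by
      rw [← LinearMap.ker_eq_bot, LinearMap.ker_eq_bot']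
      intro z hz
      apply hinj
      rw [hI]
      apply mem_of_vars hφ' (hhomz z)
      intro j
      have h3 := congrFun hz j
      rw [hB, Pi.zero_apply] at h3
      rw [← h3]
      congr 1
      ring
    obtain ⟨z, hz⟩ := (LinearMap.injective_iff_surjective.mp hBinj) fun j => φ (h * X j)
    refine ⟨lin q ^ (i - 1) * lin z, ?_, ?_⟩
    · have h3 := ((lin_homog q).pow (i - 1)).mul (lin_homog z)
      rwa [one_mul, Nat.sub_add_cancel (by omega)] at h3
    · have e1 : lin q ^ k * (lin q ^ (i - 1) * lin z) = lin q ^ (σ - 2) * lin z := by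
        rw [← mul_assoc, ← pow_add, show k + (i - 1) = σ - 2 by omega]
      rw [e1, hI]
      apply mem_of_vars hφ' ((hh : h.IsHomogeneous (i + k)).sub (hhomz z))
      intro j
      have h3 := congrFun hz j
      rw [hB] at h3
      rw [sub_mul, map_sub, ← h3, sub_eq_zero]
      congr 1
      ring

end Pool.Agent.Q8.GC
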